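import Pool.Agent.H529R2.SymPer.Core
set_option autoImplicit false
set_option linter.unusedSectionVars false

/-! The lower bound for sign-symmetric circuits. -/

namespace H529R2.SymPer

open MvPolynomial Finset

theorem prod_symmDiff {ι : Type*} [DecidableEq ι] (τ : ι → ℤˣ) (S T : Finset ι) :
    ∏ x ∈ symmDiff S T, τ x = (∏ x ∈ S, τ x) * ∏ x ∈ T, τ x := by
  have h1 : (∏ x ∈ S, τ x) = (∏ x ∈ S \ T, τ x) * ∏ x ∈ S ∩ T, τ x := by
    rw [mul_comm]; exact (Finset.prod_inter_mul_prod_sdiff S T τ).symm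
  have h2 : (∏ x ∈ T, τ x) = (∏ x ∈ T \ S, τ x) * ∏ x ∈ S ∩ T, τ x := by
    rw [mul_comm, Finset.inter_comm]; exact (Finset.prod_inter_mul_prod_sdiff T S τ).symm
  have h3 : ∏ x ∈ symmDiff S T, τ x = (∏ x ∈ S \ T, τ x) * ∏ x ∈ T \ S, τ x := by
    rw [symmDiff_def]
    exact Finset.prod_union disjoint_sdiff_sdiff
  have h4 : (∏ x ∈ S ∩ T, τ x) * (∏ x ∈ S ∩ T, τ x) = 1 := Int.units_mul_self _
  rw [h1, h2, h3]
  calc (∏ x ∈ S \ T, τ x) * ∏ x ∈ T \ S, τ x
      = (∏ x ∈ S \ T, τ x) * (∏ x ∈ T \ S, τ x) *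
        ((∏ x ∈ S ∩ T, τ x) * (∏ x ∈ S ∩ T, τ x)) := by rw [h4, mul_one]
    _ = _ := by ac_rfl

/-- the number of permutations which map `R` onto `C'` -/
theorem card_perm_le {n : ℕ} (R C' : Finset (Fin n)) (h : C'.card = R.card) :
    (Finset.univ.filter (fun σ : Equiv.Perm (Fin n) => R.map σ.toEmbedding = C')).card ≤
      R.card.factorial * (n - R.card).factorial := by
  classical
  have hmem : ∀ σ : Equiv.Perm (Fin n), R.map σ.toEmbedding = C' → ∀ i, i ∈ R ↔ σ i ∈ C' := by
    intro σ hσ i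
    rw [← hσ]
    simp
  let Φ : {σ : Equiv.Perm (Fin n) // R.map σ.toEmbedding = C'} →
      ({i // i ∈ R} ≃ {i // i ∈ C'}) × ({i // i ∉ R} ≃ {i // i ∉ C'}) := fun σ =>
    ⟨σ.1.subtypeEquiv (hmem σ.1 σ.2), σ.1.subtypeEquiv (fun i => not_congr (hmem σ.1 σ.2 i))⟩
  have hΦ : Function.Injective Φ := by
    intro σ σ' h
    apply Subtype.ext
    ext i
    by_cases hi : i ∈ R
    · have h1 := congrArg (fun p => (p.1 ⟨i, hi⟩ : Fin n)) h
      exact congrArg Fin.val h1
    · have h1 := congrArg (fun p => (p.2 ⟨i, hi⟩ : Fin n)) h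
      exact congrArg Fin.val h1
  have h1 := Fintype.card_le_of_injective Φ hΦ
  rw [Fintype.card_prod] at h1
  rw [← Fintype.card_subtype]
  refine h1.trans (Nat.mul_le_mul ?_ ?_)
  · by_cases hne : Nonempty ({i // i ∈ R} ≃ {i // i ∈ C'})
    · obtain ⟨e⟩ := hne
      rw [Fintype.card_equiv e, Fintype.card_coe]
    · rw [not_nonempty_iff] at hne
      rw [Fintype.card_eq_zero]
      exact Nat.zero_le _
  · by_cases hne : Nonempty ({i // i ∉ R} ≃ {i // i ∉ C'})
    · obtain ⟨e⟩ := hne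
      rw [Fintype.card_equiv e, Fintype.card_subtype_compl, Fintype.card_fin, Fintype.card_coe]
    · rw [not_nonempty_iff] at hne
      rw [Fintype.card_eq_zero]
      exact Nat.zero_le _

section

variable {F : Type*} [Field F] {n : ℕ} {V : Type*}

/-- two nodes are in the same orbit (up to scalars) -/
def rel (C : Subgroup (Fin n ⊕ Fin n → ℤˣ)) (g : V → MvPolynomial (Fin n × Fin n) F)
    (t t' : V) : Prop :=
  ∃ τ ∈ C, ∃ c : F, c ≠ 0 ∧ g t' = c • flip τ (g t)

theorem rel_equiv (C : Subgroup (Fin n ⊕ Fin n → ℤˣ)) (g : V → MvPolynomial (Fin n × Fin n) F) :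
    Equivalence (rel C g) where
  refl t := ⟨1, C.one_mem, 1, one_ne_zero, by rw [flip_one, one_smul]⟩
  symm := by
    rintro t t' ⟨τ, hτ, c, hc, h⟩
    refine ⟨τ⁻¹, C.inv_mem hτ, c⁻¹, inv_ne_zero hc, ?_⟩
    rw [h, flip_smul, ← flip_mul_sign, inv_mul_cancel, flip_one, smul_smul, inv_mul_cancel₀ hc,
      one_smul]
  trans := by
    rintro t t' t'' ⟨τ, hτ, c, hc, h⟩ ⟨τ', hτ', c', hc', h'⟩
    refine ⟨τ' * τ, C.mul_mem hτ' hτ, c' * c, mul_ne_zero hc' hc, ?_⟩
    rw [h', h, flip_smul, ← flip_mul_sign, smul_smul]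

/-- the row and column sets of the parts of permutation monomials which occur in a node -/
def J (m : ℕ) (g : V → MvPolynomial (Fin n × Fin n) F) (v : V) (S : Finset (Fin n ⊕ Fin n)) :
    Prop :=
  ∃ σ R, rc σ R = S ∧ m < 2 * R.card ∧ R.card ≤ m ∧ coeff (pm σ R) (g v) ≠ 0

theorem J_of_rel {C : Subgroup (Fin n ⊕ Fin n → ℤˣ)} {g : V → MvPolynomial (Fin n × Fin n) F}
    {m : ℕ} {t t' : V} (h : rel C g t t') {S : Finset (Fin n ⊕ Fin n)} (hS : J m g t S) :
    J m g t' S := by
  obtain ⟨σ, R, h1, h2, h3, h4⟩ := hS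
  obtain ⟨τ, -, c, hc, h⟩ := h
  refine ⟨σ, R, h1, h2, h3, ?_⟩
  rw [h, coeff_smul, coeff_flip]
  exact mul_ne_zero hc (mul_ne_zero (sign_ne_zero _) h4)

theorem J_card {g : V → MvPolynomial (Fin n × Fin n) F} {m : ℕ} {t : V}
    {S : Finset (Fin n ⊕ Fin n)} (hS : J m g t S) : S.card ≤ 2 * m := by
  obtain ⟨σ, R, h1, h2, h3, h4⟩ := hS
  rw [← h1, card_rc]
  omega

open Classical in
/-- **The counting argument for one orbit.** -/
theorem card_J_le [Fintype V] (h2 : (2 : F) ≠ 0) (C : Subgroup (Fin n ⊕ Fin n → ℤˣ)) (m : ℕ)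
    (hC : WiseIndep (4 * m) C) (g : V → MvPolynomial (Fin n × Fin n) F) (hs : IsSymmetric g C)
    (v : V) : Fintype.card {S // J m g v S} ≤ Fintype.card {t // rel C g v t} := by
  by_cases hne : Nonempty {S // J m g v S}
  swap
  · rw [not_nonempty_iff] at hne
    rw [Fintype.card_eq_zero]
    exact Nat.zero_le _
  obtain ⟨S0⟩ := hne
  let ch : Finset (Fin n ⊕ Fin n) → (C →* ℤˣ) := fun S =>
    { toFun := fun τ => ∏ x ∈ S, τ.1 x
      map_one' := by simp
      map_mul' := fun τ τ' => by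
        simp only [Subgroup.coe_mul, Pi.mul_apply]
        exact Finset.prod_mul_distrib }
  have hch : ∀ S (τ : C), ch S τ = ∏ x ∈ S, τ.1 x := fun _ _ => rfl
  have hq : ∀ τ : C, ∃ w : {t // rel C g v t}, ∃ c : F, c ≠ 0 ∧ g w.1 = c • flip τ.1 (g v) := by
    intro τ
    obtain ⟨w, c, hc, h⟩ := hs τ.1 τ.2 v
    exact ⟨⟨w, τ.1, τ.2, c, hc, h⟩, c, hc, h⟩
  choose q hq using hq
  refine SymMM.card_le_of_chars (G := C) (fun S : {S // J m g v S} => ch S.1 * ch S0.1) ?_ q ?_
  · intro S S' h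
    by_contra hSS
    have hSS' : S.1 ≠ S'.1 := fun h => hSS (Subtype.ext h)
    have hD : (symmDiff S.1 S'.1).Nonempty := by
      rw [Finset.nonempty_iff_ne_empty]
      intro h0
      exact hSS' (symmDiff_eq_bot.mp h0)
    have hDc : (symmDiff S.1 S'.1).card ≤ 4 * m := by
      have h1 : (symmDiff S.1 S'.1).card ≤ (S.1 ∪ S'.1).card :=
        Finset.card_le_card (fun x hx => by
          rcases Finset.mem_symmDiff.mp hx with h | h
          · exact Finset.mem_union_left _ h.1
          · exact Finset.mem_union_right _ h.1)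
      have h3 := Finset.card_union_le S.1 S'.1
      have h4 := J_card S.2
      have h5 := J_card S'.2
      omega
    obtain ⟨τ, hτ, hprod⟩ := hC _ hD hDc
    rw [prod_symmDiff] at hprod
    have h1 := DFunLike.congr_fun h (⟨τ, hτ⟩ : C)
    have h3 : ch S.1 ⟨τ, hτ⟩ = ch S'.1 ⟨τ, hτ⟩ := mul_right_cancel h1
    rw [hch, hch] at h3
    simp only at h3
    rw [h3, Int.units_mul_self] at hprod
    exact absurd hprod (by decide)
  · intro S τ τ' h
    obtain ⟨c, hc, e1⟩ := hq τ
    obtain ⟨c', hc', e2⟩ := hq τ'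
    rw [← h] at e2
    rw [e1] at e2
    have key : ∀ S : {S // J m g v S}, c * (((ch S.1 τ : ℤˣ) : ℤ) : F) =
        c' * (((ch S.1 τ' : ℤˣ) : ℤ) : F) := by
      rintro ⟨S, σ, R, h1, -, -, h4⟩
      have h5 := congrArg (coeff (pm σ R)) e2
      rw [coeff_smul, coeff_smul, coeff_flip, coeff_flip, chi_pm, chi_pm, h1, smul_eq_mul,
        smul_eq_mul, ← mul_assoc, ← mul_assoc] at h5
      exact mul_right_cancel₀ h4 h5
    have k1 := key S
    have k2 := key S0
    have k3 : (((ch S.1 τ * ch S0.1 τ' : ℤˣ) : ℤ) : F) =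
        (((ch S.1 τ' * ch S0.1 τ : ℤˣ) : ℤ) : F) := by
      push_cast
      apply mul_left_cancel₀ (mul_ne_zero hc hc')
      linear_combination (c' * (((ch S0.1 τ' : ℤˣ) : ℤ) : F)) * k1 -
        (c' * (((ch S.1 τ' : ℤˣ) : ℤ) : F)) * k2
    have k4 := sign_inj h2 k3
    show ch S.1 τ * ch S0.1 τ = ch S.1 τ' * ch S0.1 τ'
    calc ch S.1 τ * ch S0.1 τ = (ch S.1 τ * ch S0.1 τ') * (ch S0.1 τ' * ch S0.1 τ) := by
          rw [mul_assoc, ← mul_assoc (ch S0.1 τ') (ch S0.1 τ'), Int.units_mul_self, one_mul]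
      _ = (ch S.1 τ' * ch S0.1 τ) * (ch S0.1 τ' * ch S0.1 τ) := by rw [k4]
      _ = (ch S.1 τ' * ch S0.1 τ') * (ch S0.1 τ * ch S0.1 τ) := by ac_rfl
      _ = ch S.1 τ' * ch S0.1 τ' := by rw [Int.units_mul_self, mul_one]

open Classical in
/-- the number of all row and column sets is at most the number of nodes -/
theorem card_T_le [Fintype V] (h2 : (2 : F) ≠ 0) (C : Subgroup (Fin n ⊕ Fin n → ℤˣ)) (m : ℕ)
    (hC : WiseIndep (4 * m) C) (g : V → MvPolynomial (Fin n × Fin n) F) (hs : IsSymmetric g C) :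
    (Finset.univ.filter (fun S : Finset (Fin n ⊕ Fin n) => ∃ v, J m g v S)).card ≤
      Fintype.card V := by
  let s : Setoid V := ⟨rel C g, rel_equiv C g⟩
  calc (Finset.univ.filter (fun S : Finset (Fin n ⊕ Fin n) => ∃ v, J m g v S)).card
      ≤ ((Finset.univ : Finset (Quotient s)).biUnion
          (fun q => Finset.univ.filter (fun S => J m g q.out S))).card := by
        apply Finset.card_le_card
        intro S hS
        obtain ⟨v, hv⟩ := (Finset.mem_filter.mp hS).2
        refine Finset.mem_biUnion.mpr ⟨Quotient.mk s v, Finset.mem_univ _, ?_⟩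
        refine Finset.mem_filter.mpr ⟨Finset.mem_univ _, ?_⟩
        have hrel : rel C g (Quotient.mk s v).out v := Quotient.mk_out (s := s) v
        exact J_of_rel ((rel_equiv C g).symm hrel) hv
    _ ≤ ∑ q : Quotient s, (Finset.univ.filter (fun S => J m g q.out S)).card :=
        Finset.card_biUnion_le
    _ ≤ ∑ q : Quotient s, Fintype.card {t // rel C g q.out t} := by
        refine Finset.sum_le_sum (fun q _ => ?_)
        rw [← Fintype.card_subtype]
        exact card_J_le h2 C m hC g hs q.out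
    _ = ∑ q : Quotient s, (Finset.univ.filter (fun t' : V => Quotient.mk s t' = q)).card := by
        refine Finset.sum_congr rfl (fun q _ => ?_)
        rw [Fintype.card_subtype]
        congr 1
        ext t'
        simp only [Finset.mem_filter, Finset.mem_univ, true_and]
        constructor
        · intro h
          have h1 : Quotient.mk s q.out = Quotient.mk s t' := Quotient.sound h
          rw [← h1, Quotient.out_eq]
        · intro h
          have h1 : Quotient.mk s q.out = Quotient.mk s t' := by rw [Quotient.out_eq, h]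
          exact Quotient.exact h1
    _ = Fintype.card V := by
        rw [← Finset.card_eq_sum_card_fiberwise (fun _ _ => Finset.mem_univ _)]
        exact Finset.card_univ

/-- **Lower bound for sign-symmetric circuits.** -/
theorem lower_bound [Fintype V] (h2 : (2 : F) ≠ 0) {rank : V → ℕ}
    {g : V → MvPolynomial (Fin n × Fin n) F} (hg : IsCircuit rank g)
    {m : ℕ} (hm : 1 ≤ m) (hmn : m < n)
    (C : Subgroup (Fin n ⊕ Fin n → ℤˣ)) (hC : WiseIndep (4 * m) C) (hs : IsSymmetric g C)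
    (hv : ∀ σ : Equiv.Perm (Fin n), ∃ v, coeff (permMon σ) (g v) ≠ 0) :
    ∃ d, m < 2 * d ∧ d ≤ m ∧ n.choose d ≤ Fintype.card V := by
  classical
  by_contra hcon
  push Not at hcon
  set T := Finset.univ.filter (fun S : Finset (Fin n ⊕ Fin n) => ∃ v, J m g v S) with hT
  have hTV : T.card ≤ Fintype.card V := card_T_le h2 C m hC g hs
  have hex : ∀ σ : Equiv.Perm (Fin n), ∃ R : Finset (Fin n), m < 2 * R.card ∧ R.card ≤ m ∧
      rc σ R ∈ T := by
    intro σ
    obtain ⟨v, hv⟩ := hv σ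
    have hdeg : m < (permMon σ).degree := by
      rw [permMon_eq, degree_pm, Finset.card_univ, Fintype.card_fin]
      exact hmn
    obtain ⟨u, μ, h1, h3, h4, h5⟩ := exists_mid hg hm _ v rfl _ hv hdeg
    have h6 := eq_pm σ μ h1
    set R := Finset.univ.filter (fun i => μ (i, σ i) ≠ 0)
    rw [h6] at h3 h4 h5
    rw [degree_pm] at h4 h5
    exact ⟨R, h4, h5, Finset.mem_filter.mpr ⟨Finset.mem_univ _, u, σ, R, rfl, h4, h5, h3⟩⟩
  choose R hR1 hR2 hR3 using hex
  have hcount : (Finset.univ : Finset (Equiv.Perm (Fin n))).card =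
      ∑ S ∈ T, (Finset.univ.filter (fun σ => rc σ (R σ) = S)).card :=
    Finset.card_eq_sum_card_fiberwise (fun σ _ => hR3 σ)
  rw [Finset.card_univ, Fintype.card_perm, Fintype.card_fin] at hcount
  have hfib : ∀ S ∈ T, (Fintype.card V + 1) *
      (Finset.univ.filter (fun σ => rc σ (R σ) = S)).card ≤ n.factorial := by
    intro S hS
    obtain ⟨v, σ0, R0, e1, e2, e3, e4⟩ := (Finset.mem_filter.mp hS).2
    have hle : (Finset.univ.filter (fun σ => rc σ (R σ) = S)).card ≤
        R0.card.factorial * (n - R0.card).factorial := by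
      refine le_trans (Finset.card_le_card ?_) (card_perm_le R0 (R0.map σ0.toEmbedding)
        (Finset.card_map _))
      intro σ hσ
      have h1 := (Finset.mem_filter.mp hσ).2
      rw [← e1] at h1
      have h3 : R σ = R0 := by
        have := congrArg Finset.toLeft h1
        simpa [rc] using this
      have h4 : (R σ).map σ.toEmbedding = R0.map σ0.toEmbedding := by
        have := congrArg Finset.toRight h1
        simpa [rc] using this
      rw [h3] at h4
      exact Finset.mem_filter.mpr ⟨Finset.mem_univ _, h4⟩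
    have hd := hcon R0.card e2 e3
    calc (Fintype.card V + 1) * (Finset.univ.filter (fun σ => rc σ (R σ) = S)).card
        ≤ n.choose R0.card * (R0.card.factorial * (n - R0.card).factorial) :=
          Nat.mul_le_mul hd hle
      _ = n.factorial := by
          rw [← mul_assoc]
          exact Nat.choose_mul_factorial_mul_factorial (by omega)
  have h3 : (Fintype.card V + 1) * n.factorial ≤ T.card * n.factorial := by
    calc (Fintype.card V + 1) * n.factorial
        = ∑ S ∈ T, (Fintype.card V + 1) *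
            (Finset.univ.filter (fun σ => rc σ (R σ) = S)).card := by
          rw [← Finset.mul_sum, ← hcount]
      _ ≤ ∑ S ∈ T, n.factorial := Finset.sum_le_sum hfib
      _ = T.card * n.factorial := by rw [Finset.sum_const, smul_eq_mul]
  have h4 := Nat.le_of_mul_le_mul_right h3 (Nat.factorial_pos n)
  omega

end

end H529R2.SymPer
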