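import Pool.Agent.H529R2.SymPer.Defs
import Pool.Agent.H529R2.SymMM.Core
set_option autoImplicit false

/-! Parse trees and the action of sign changes on coefficients. -/

namespace H529R2.SymPer

open MvPolynomial Finset

section

variable {F : Type*} [Field F] {n : ℕ} {V : Type*}

/-- Every monomial of degree more than `m` of a node contains a monomial of some node whose degree
lies in `(m / 2, m]`. -/
theorem exists_mid {rank : V → ℕ} {g : V → MvPolynomial (Fin n × Fin n) F}
    (hg : IsCircuit rank g) {m : ℕ} (hm : 1 ≤ m) :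
    ∀ (k : ℕ) (v : V), rank v = k → ∀ M, coeff M (g v) ≠ 0 → m < M.degree →
      ∃ u μ, μ ≤ M ∧ coeff μ (g u) ≠ 0 ∧ m < 2 * μ.degree ∧ μ.degree ≤ m := by
  classical
  intro k
  induction k using Nat.strong_induction_on with
  | _ k ih =>
    intro v hv M hM hdeg
    rcases hg v with h | ⟨u, w, hu, hw, h⟩
    · -- a linear combination
      have key : ∀ p ∈ Submodule.span F ({1} ∪ Set.range
          (fun e : Fin n × Fin n => (X e : MvPolynomial _ F)) ∪ {p | ∃ u, rank u < rank v ∧ p = g u}),
          coeff M p ≠ 0 → ∃ u, rank u < rank v ∧ coeff M (g u) ≠ 0 := by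
        intro p hp
        induction hp using Submodule.span_induction with
        | mem x hx =>
          intro hne
          rcases hx with (hx | ⟨e, rfl⟩) | ⟨u, hu, rfl⟩
          · exfalso
            rw [Set.mem_singleton_iff.mp hx, coeff_one] at hne
            have : M = 0 := by
              by_contra hM0
              exact hne (if_neg (fun h => hM0 h.symm))
            rw [this, map_zero] at hdeg
            omega
          · exfalso
            rw [coeff_X] at hne
            have : M = Finsupp.single e 1 := by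
              by_contra hM0
              exact hne (if_neg (fun h => hM0 h.symm))
            rw [this, Finsupp.degree_single] at hdeg
            omega
          · exact ⟨u, hu, hne⟩
        | zero => intro h; simp at h
        | add x y _ _ hx hy =>
          intro hne
          rw [coeff_add] at hne
          by_cases h0 : coeff M x = 0
          · rw [h0, zero_add] at hne
            exact hy hne
          · exact hx h0
        | smul a x _ hx =>
          intro hne
          rw [coeff_smul, smul_eq_mul] at hne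
          exact hx (right_ne_zero_of_mul hne)
      obtain ⟨u, hu, hne⟩ := key _ h hM
      exact ih _ (hv ▸ hu) u rfl M hne hdeg
    · rw [h, coeff_mul] at hM
      obtain ⟨⟨α, β⟩, hαβ, hne⟩ := Finset.exists_ne_zero_of_sum_ne_zero hM
      rw [Finset.HasAntidiagonal.mem_antidiagonal] at hαβ
      simp only at hαβ hne
      have hα : coeff α (g u) ≠ 0 := left_ne_zero_of_mul hne
      have hβ : coeff β (g w) ≠ 0 := right_ne_zero_of_mul hne
      have hαM : α ≤ M := hαβ ▸ le_self_add
      have hβM : β ≤ M := hαβ ▸ le_add_self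
      have hd : α.degree + β.degree = M.degree := by rw [← hαβ, map_add]
      by_cases h1 : m < α.degree
      · obtain ⟨u', μ, h2, h3⟩ := ih _ (hv ▸ hu) u rfl α hα h1
        exact ⟨u', μ, h2.trans hαM, h3⟩
      by_cases h2 : m < β.degree
      · obtain ⟨u', μ, h2, h3⟩ := ih _ (hv ▸ hw) w rfl β hβ h2
        exact ⟨u', μ, h2.trans hβM, h3⟩
      by_cases h3 : β.degree ≤ α.degree
      · exact ⟨u, α, hαM, hα, by omega, by omega⟩
      · exact ⟨w, β, hβM, hβ, by omega, by omega⟩

/-- the sign by which a monomial is multiplied -/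
def chi (M : (Fin n × Fin n) →₀ ℕ) : (Fin n ⊕ Fin n → ℤˣ) →* ℤˣ where
  toFun τ := M.prod (fun e k => (τ (Sum.inl e.1) * τ (Sum.inr e.2)) ^ k)
  map_one' := by simp [Finsupp.prod]
  map_mul' τ τ' := by
    rw [← Finsupp.prod_mul]
    refine Finset.prod_congr rfl (fun e _ => ?_)
    simp only [Pi.mul_apply]
    rw [← mul_pow]
    congr 1
    ac_rfl

theorem chi_apply (M : (Fin n × Fin n) →₀ ℕ) (τ : Fin n ⊕ Fin n → ℤˣ) :
    chi M τ = M.prod (fun e k => (τ (Sum.inl e.1) * τ (Sum.inr e.2)) ^ k) := rfl

theorem flip_monomial (τ : Fin n ⊕ Fin n → ℤˣ) (M : (Fin n × Fin n) →₀ ℕ) (a : F) :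
    flip τ (monomial M a) = monomial M (((chi M τ : ℤˣ) : ℤ) * a : F) := by
  rw [flip, aeval_monomial, monomial_eq, map_mul, algebraMap_eq]
  have h1 : (M.prod fun i k => (C (((τ (Sum.inl i.1) * τ (Sum.inr i.2) : ℤˣ) : ℤ) : F) * X i) ^ k :
      MvPolynomial (Fin n × Fin n) F) =
      C (((chi M τ : ℤˣ) : ℤ) : F) * M.prod fun i k => X i ^ k := by
    simp only [mul_pow]
    rw [Finsupp.prod_mul]
    congr 1
    rw [chi_apply, Finsupp.prod, Finsupp.prod, Units.coe_prod, Int.cast_prod, map_prod]
    refine Finset.prod_congr rfl (fun e _ => ?_)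
    rw [← map_pow]
    congr 1
    push_cast
    ring
  rw [h1]
  ring

theorem flip_add (τ : Fin n ⊕ Fin n → ℤˣ) (p q : MvPolynomial (Fin n × Fin n) F) :
    flip τ (p + q) = flip τ p + flip τ q := map_add _ _ _

theorem flip_smul (τ : Fin n ⊕ Fin n → ℤˣ) (c : F) (p : MvPolynomial (Fin n × Fin n) F) :
    flip τ (c • p) = c • flip τ p := map_smul _ _ _

theorem coeff_flip (τ : Fin n ⊕ Fin n → ℤˣ) (M : (Fin n × Fin n) →₀ ℕ)
    (p : MvPolynomial (Fin n × Fin n) F) :
    coeff M (flip τ p) = (((chi M τ : ℤˣ) : ℤ) : F) * coeff M p := by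
  classical
  induction p using MvPolynomial.induction_on' with
  | monomial N a =>
    rw [flip_monomial, coeff_monomial, coeff_monomial]
    by_cases h : N = M
    · subst h; simp
    · simp [h]
  | add p q hp hq => rw [flip_add, coeff_add, coeff_add, hp, hq, mul_add]

theorem flip_one (p : MvPolynomial (Fin n × Fin n) F) : flip (1 : Fin n ⊕ Fin n → ℤˣ) p = p := by
  ext M
  rw [coeff_flip, map_one]
  simp

theorem flip_mul_sign (τ τ' : Fin n ⊕ Fin n → ℤˣ) (p : MvPolynomial (Fin n × Fin n) F) :
    flip (τ * τ') p = flip τ (flip τ' p) := by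
  ext M
  rw [coeff_flip, coeff_flip, coeff_flip, map_mul]
  push_cast
  ring

theorem sign_ne_zero (u : ℤˣ) : (((u : ℤ)) : F) ≠ 0 := by
  rcases Int.units_eq_one_or u with h | h <;> simp [h]

theorem sign_inj (h2 : (2 : F) ≠ 0) {u v : ℤˣ} (h : (((u : ℤ)) : F) = ((v : ℤ) : F)) : u = v := by
  rcases Int.units_eq_one_or u with hu | hu <;> rcases Int.units_eq_one_or v with hv | hv
  · rw [hu, hv]
  · exfalso
    rw [hu, hv] at h
    push_cast at h
    exact h2 (by linear_combination h)
  · exfalso
    rw [hu, hv] at h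
    push_cast at h
    exact h2 (by linear_combination -h)
  · rw [hu, hv]

/-- the monomial of the part of a permutation on the rows in `R` -/
noncomputable def pm (σ : Equiv.Perm (Fin n)) (R : Finset (Fin n)) : (Fin n × Fin n) →₀ ℕ :=
  ∑ i ∈ R, Finsupp.single (i, σ i) 1

theorem pm_apply (σ : Equiv.Perm (Fin n)) (R : Finset (Fin n)) (i j : Fin n) :
    pm σ R (i, j) = if i ∈ R ∧ σ i = j then 1 else 0 := by
  rw [pm, Finsupp.finsetSum_apply]
  simp only [Finsupp.single_apply, Prod.mk.injEq]
  by_cases h : i ∈ R ∧ σ i = j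
  · rw [if_pos h, Finset.sum_eq_single i]
    · simp [h.2]
    · intro b _ hb
      simp [hb]
    · intro h'; exact absurd h.1 h'
  · rw [if_neg h]
    refine Finset.sum_eq_zero (fun k hk => ?_)
    rw [if_neg]
    rintro ⟨rfl, h2⟩
    exact h ⟨hk, h2⟩

theorem permMon_eq (σ : Equiv.Perm (Fin n)) : permMon σ = pm σ Finset.univ := rfl

theorem degree_pm (σ : Equiv.Perm (Fin n)) (R : Finset (Fin n)) : (pm σ R).degree = R.card := by
  rw [pm, map_sum]
  simp

theorem eq_pm (σ : Equiv.Perm (Fin n)) (μ : (Fin n × Fin n) →₀ ℕ) (h : μ ≤ permMon σ) :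
    μ = pm σ (Finset.univ.filter (fun i => μ (i, σ i) ≠ 0)) := by
  ext ⟨i, j⟩
  have h1 := h (i, j)
  rw [permMon_eq, pm_apply] at h1
  rw [pm_apply]
  by_cases hj : σ i = j
  · subst hj
    simp only [Finset.mem_univ, true_and, if_true] at h1
    by_cases h0 : μ (i, σ i) = 0
    · simp [h0]
    · simp only [Finset.mem_filter, Finset.mem_univ, true_and]
      rw [if_pos ⟨h0, trivial⟩]
      omega
  · have : ¬ (i ∈ (Finset.univ : Finset (Fin n)) ∧ σ i = j) := fun h => hj h.2
    rw [if_neg this] at h1
    rw [if_neg (fun h => hj h.2)]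
    omega

/-- the rows and columns of a part of a permutation -/
def rc (σ : Equiv.Perm (Fin n)) (R : Finset (Fin n)) : Finset (Fin n ⊕ Fin n) :=
  R.disjSum (R.map σ.toEmbedding)

theorem card_rc (σ : Equiv.Perm (Fin n)) (R : Finset (Fin n)) : (rc σ R).card = 2 * R.card := by
  rw [rc, Finset.card_disjSum, Finset.card_map]
  ring

theorem chi_pm (σ : Equiv.Perm (Fin n)) (R : Finset (Fin n)) (τ : Fin n ⊕ Fin n → ℤˣ) :
    chi (pm σ R) τ = ∏ x ∈ rc σ R, τ x := by
  have hadd : ∀ M N : (Fin n × Fin n) →₀ ℕ, chi (M + N) τ = chi M τ * chi N τ := by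
    intro M N
    rw [chi_apply, chi_apply, chi_apply]
    exact Finsupp.prod_add_index' (fun _ => pow_zero _) (fun _ _ _ => pow_add _ _ _)
  have hzero : chi (0 : (Fin n × Fin n) →₀ ℕ) τ = 1 := by
    rw [chi_apply]; exact Finsupp.prod_zero_index
  have hsum : ∀ S : Finset (Fin n), chi (∑ i ∈ S, Finsupp.single (i, σ i) 1) τ =
      ∏ i ∈ S, (τ (Sum.inl i) * τ (Sum.inr (σ i))) := by
    intro S
    induction S using Finset.induction_on with
    | empty => simpa using hzero
    | insert a S ha ih =>
      rw [Finset.sum_insert ha, Finset.prod_insert ha, hadd, ih]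
      congr 1
      rw [chi_apply, Finsupp.prod_single_index (by simp), pow_one]
  rw [pm, hsum, rc, Finset.prod_disjSum, Finset.prod_map, Finset.prod_mul_distrib]
  rfl

end

end H529R2.SymPer
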