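import Mathlib
set_option autoImplicit false

/-! Definitions: arithmetic circuits which are invariant under sign changes of rows and columns. -/

namespace H529R2.SymPer

open MvPolynomial

/-- `V` is the set of nodes of a division-free arithmetic circuit in the variables `X (i, j)` over
`F`, and `g v` is the polynomial computed at the node `v`: every node is a linear combination (of
any fan-in) of `1`, the variables and nodes of smaller rank, or the product of two nodes of smaller
rank.  (A rank function exists exactly when the graph of the circuit is acyclic.) -/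
def IsCircuit {F : Type*} [Field F] {n : ℕ} {V : Type*} (rank : V → ℕ)
    (g : V → MvPolynomial (Fin n × Fin n) F) : Prop :=
  ∀ v : V,
    g v ∈ Submodule.span F ({1} ∪ Set.range (fun e : Fin n × Fin n => (X e : MvPolynomial _ F)) ∪
      {p | ∃ u, rank u < rank v ∧ p = g u}) ∨
    ∃ u w, rank u < rank v ∧ rank w < rank v ∧ g v = g u * g w

/-- The substitution `x_ij ↦ (sign of row i) (sign of column j) x_ij`; the signs of the rows are
`τ (Sum.inl i)`, those of the columns are `τ (Sum.inr j)`. -/
noncomputable def flip {F : Type*} [Field F] {n : ℕ} (τ : Fin n ⊕ Fin n → ℤˣ)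
    (p : MvPolynomial (Fin n × Fin n) F) : MvPolynomial (Fin n × Fin n) F :=
  aeval (fun e : Fin n × Fin n =>
    C (((τ (Sum.inl e.1) * τ (Sum.inr e.2) : ℤˣ) : ℤ) : F) * X e) p

/-- The circuit is invariant, up to nonzero scalars, under the sign changes in `C`: with every
polynomial `p` computed at a node and every `τ` in `C`, a nonzero multiple of `flip τ p` is also
computed at some node. -/
def IsSymmetric {F : Type*} [Field F] {n : ℕ} {V : Type*}
    (g : V → MvPolynomial (Fin n × Fin n) F) (C : Subgroup (Fin n ⊕ Fin n → ℤˣ)) : Prop :=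
  ∀ τ ∈ C, ∀ v, ∃ w, ∃ c : F, c ≠ 0 ∧ g w = c • flip τ (g v)

/-- The monomial `∏ x_{i σ(i)}` of a permutation. -/
noncomputable def permMon {n : ℕ} (σ : Equiv.Perm (Fin n)) : (Fin n × Fin n) →₀ ℕ :=
  ∑ i, Finsupp.single (i, σ i) 1

/-- The generic permanent. -/
noncomputable def per (F : Type*) [Field F] (n : ℕ) : MvPolynomial (Fin n × Fin n) F :=
  ∑ σ : Equiv.Perm (Fin n), ∏ i, X (i, σ i)

/-- The generic determinant. -/
noncomputable def det (F : Type*) [Field F] (n : ℕ) : MvPolynomial (Fin n × Fin n) F :=
  Matrix.det (Matrix.of fun i j => X (i, j))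

/-- A group of sign vectors is `t`-wise independent: for every set of at least one and at most `t`
indices some `τ` in the group has product `-1` over this set. -/
def WiseIndep {ι : Type*} (t : ℕ) (C : Subgroup (ι → ℤˣ)) : Prop :=
  ∀ S : Finset ι, S.Nonempty → S.card ≤ t → ∃ τ ∈ C, ∏ i ∈ S, τ i = -1

end H529R2.SymPer
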