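import Pool.Agent.H529R2.SymPer.Bound
import Pool.Agent.H529R2.SymMM.Exists
set_option autoImplicit false
set_option linter.unusedSectionVars false

/-! Small `t`-wise independent groups of sign vectors, the full group, binomial estimates. -/

namespace H529R2.SymPer

open Finset H529R2.SymMM

theorem greedy {V : Type*} [AddCommGroup V] [DecidableEq V] [Fintype V] (h2 : ∀ v : V, v + v = 0)
    {u : ℕ} (hu : 1 ≤ u) (m : ℕ) (hm : ∀ n < m, (n + 1) ^ u < Fintype.card V) :
    ∃ A : Finset V, A.card = m ∧ ∀ s ⊆ A, s.Nonempty → s.card ≤ u + 1 → ∑ v ∈ s, v ≠ 0 := by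
  induction m with
  | zero =>
    refine ⟨∅, rfl, ?_⟩
    intro s hs hne
    have : s = ∅ := Finset.subset_empty.mp hs
    exact absurd hne (by simp [this])
  | succ m ih =>
    obtain ⟨A, hA, hind⟩ := ih (fun n hn => hm n (by omega))
    have hlt : (sums A u).card < Fintype.card V := by
      refine (card_sums A u).trans_lt ?_
      rw [hA]
      exact hm m (by omega)
    obtain ⟨v, -, hv⟩ : ∃ v ∈ (Finset.univ : Finset V), v ∉ sums A u := by
      by_contra hcon
      push Not at hcon
      have := Finset.card_le_card (fun x hx => hcon x hx : (Finset.univ : Finset V) ⊆ sums A u)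
      rw [Finset.card_univ] at this
      omega
    have hvA : v ∉ A := fun h => hv (by
      simpa using mem_sums A u {v} (by simpa using h) (by simpa using hu))
    refine ⟨insert v A, by rw [Finset.card_insert_of_notMem hvA, hA], ?_⟩
    intro s hs hne hcard hsum
    by_cases hvs : v ∈ s
    · apply hv
      have h1 : ∑ x ∈ s.erase v, x = v := by
        have h3 := Finset.sum_erase_add s (fun x => x) hvs
        rw [hsum] at h3
        have h4 := h2 v
        calc ∑ x ∈ s.erase v, x = (∑ x ∈ s.erase v, x + v) + v - (v + v) := by abel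
          _ = v := by rw [h3, h4]; abel
      rw [← h1]
      apply mem_sums
      · intro x hx
        rcases Finset.mem_insert.mp (hs (Finset.mem_of_mem_erase hx)) with h | h
        · exact absurd h (Finset.ne_of_mem_erase hx)
        · exact h
      · rw [Finset.card_erase_of_mem hvs]
        omega
    · refine hind s (fun x hx => ?_) hne hcard hsum
      rcases Finset.mem_insert.mp (hs hx) with h | h
      · exact absurd (h ▸ hx) hvs
      · exact h

/-- the sign vector given by `u` -/
def signVec {ι : Type*} {k : ℕ} (f : ι → Fin k → ZMod 2) : (Fin k → ℤˣ) →* (ι → ℤˣ) where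
  toFun u i := ∏ j, if f i j = 1 then u j else 1
  map_one' := by
    funext i
    simp
  map_mul' u v := by
    funext i
    simp only [Pi.mul_apply]
    rw [← Finset.prod_mul_distrib]
    refine Finset.prod_congr rfl (fun j _ => ?_)
    split_ifs <;> simp

/-- `(u + 1)`-wise independent groups of order `O(r ^ u)` -/
theorem exists_group (ι : Type*) [Fintype ι] {u : ℕ} (hu : 1 ≤ u) :
    ∃ C : Subgroup (ι → ℤˣ), WiseIndep (u + 1) C ∧
      Nat.card C ≤ 2 * (Fintype.card ι + 1) ^ u := by
  classical
  set r := Fintype.card ι with hr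
  set k := Nat.log 2 ((r + 1) ^ u) + 1 with hk
  have hk1 : (r + 1) ^ u < 2 ^ k := Nat.lt_pow_succ_log_self (by norm_num) _
  have hk2 : 2 ^ k ≤ 2 * (r + 1) ^ u := by
    rw [hk, pow_succ, mul_comm]
    exact Nat.mul_le_mul_left _ (Nat.pow_log_le_self 2 (by positivity))
  obtain ⟨A, hA, hind⟩ := greedy (V := Fin k → ZMod 2) (fun v => by
      funext j
      exact CharTwo.add_self_eq_zero (v j)) hu r (fun n hn => by
      rw [Fintype.card_fun, ZMod.card, Fintype.card_fin]
      exact (Nat.pow_le_pow_left (by omega) u).trans_lt hk1)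
  let e : ι ≃ A := Fintype.equivOfCardEq (by simp [hA, hr])
  let f : ι → Fin k → ZMod 2 := fun i => (e i).1
  have hf : Function.Injective f := fun i j h => e.injective (Subtype.ext h)
  refine ⟨(signVec f).range, ?_, ?_⟩
  · intro s hs hcard
    have h1 := hind (s.image f) (by
      intro x hx
      obtain ⟨i, -, rfl⟩ := Finset.mem_image.mp hx
      exact (e i).2) (hs.image _) (by rwa [Finset.card_image_of_injective _ hf])
    rw [Finset.sum_image (fun i _ j _ h => hf h)] at h1
    obtain ⟨j, hj⟩ : ∃ j, (∑ i ∈ s, f i) j ≠ 0 := by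
      by_contra hcon
      push Not at hcon
      exact h1 (funext hcon)
    have hj1 : ((s.filter (fun i => f i j = 1)).card : ZMod 2) = 1 := by
      rw [Finset.sum_apply] at hj
      have h3 : ∑ i ∈ s, f i j = ((s.filter (fun i => f i j = 1)).card : ZMod 2) := by
        rw [Finset.card_filter]
        push_cast
        refine Finset.sum_congr rfl (fun i _ => ?_)
        have : ∀ z : ZMod 2, z = if z = 1 then 1 else 0 := by decide
        exact this _
      rw [h3] at hj
      have : ∀ z : ZMod 2, z ≠ 0 → z = 1 := by decide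
      exact this _ hj
    have hodd : Odd (s.filter (fun i => f i j = 1)).card := by
      rw [← Nat.not_even_iff_odd]
      intro he
      have := (ZMod.natCast_eq_zero_iff_even).mpr he
      rw [this] at hj1
      exact absurd hj1 (by decide)
    refine ⟨signVec f (Function.update 1 j (-1)), ⟨_, rfl⟩, ?_⟩
    have hval : ∀ i, signVec f (Function.update 1 j (-1)) i = if f i j = 1 then -1 else 1 := by
      intro i
      show (∏ j', if f i j' = 1 then (Function.update (1 : Fin k → ℤˣ) j (-1)) j' else 1) = _
      rw [Finset.prod_eq_single j]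
      · simp
      · intro j' _ hj'
        rw [Function.update_of_ne hj']
        simp
      · intro h; exact absurd (Finset.mem_univ _) h
    rw [Finset.prod_congr rfl (fun i _ => hval i), Finset.prod_ite, Finset.prod_const,
      Finset.prod_const_one, mul_one]
    exact hodd.neg_one_pow
  · have h1 : Nat.card (signVec f).range ≤ Nat.card (Fin k → ℤˣ) :=
      Nat.card_le_card_of_surjective (signVec f).rangeRestrict
        (signVec f).rangeRestrict_surjective
    have h2 : Nat.card (Fin k → ℤˣ) = 2 ^ k := by
      rw [Nat.card_eq_fintype_card, Fintype.card_fun, Fintype.card_fin]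
      rfl
    omega

/-- the group of all sign vectors is `t`-wise independent for all `t` -/
theorem wiseIndep_top {ι : Type*} (t : ℕ) : WiseIndep t (⊤ : Subgroup (ι → ℤˣ)) := by
  classical
  rintro S ⟨i0, hi0⟩ -
  refine ⟨Function.update 1 i0 (-1), Subgroup.mem_top _, ?_⟩
  rw [Finset.prod_update_of_mem hi0]
  simp

theorem choose_mono_half {n k d : ℕ} (hkd : k ≤ d) (hd : 2 * d ≤ n) :
    n.choose k ≤ n.choose d := by
  induction d, hkd using Nat.le_induction with
  | base => exact le_rfl
  | succ d hkd ih =>
    exact (ih (by omega)).trans (Nat.choose_le_succ_of_lt_half_left (by omega))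

theorem choose_ge {n k d : ℕ} (hkd : k ≤ d) (hd : d + k ≤ n) : n.choose k ≤ n.choose d := by
  by_cases h : 2 * d ≤ n
  · exact choose_mono_half hkd h
  · rw [← Nat.choose_symm (show d ≤ n by omega)]
    exact choose_mono_half (by omega) (by omega)

/-- the largest term of `(1 + 2) ^ n` -/
theorem three_pow_le (n : ℕ) : 3 ^ n ≤ (n + 1) * (2 ^ (n - n / 3) * n.choose (n / 3)) := by
  set k := n / 3 with hk
  have hup : ∀ j, j < k → 2 ^ (n - j) * n.choose j ≤ 2 ^ (n - (j + 1)) * n.choose (j + 1) := by
    intro j hj
    have h1 : 2 * n.choose j ≤ n.choose (j + 1) := by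
      have h3 := Nat.choose_succ_right_eq n j
      apply Nat.le_of_mul_le_mul_right (c := j + 1) _ (by omega)
      rw [h3, mul_assoc, mul_comm 2, mul_assoc]
      exact Nat.mul_le_mul_left _ (by omega)
    have h2 : 2 ^ (n - j) = 2 ^ (n - (j + 1)) * 2 := by
      rw [← pow_succ]
      congr 1
      omega
    rw [h2, mul_assoc]
    exact Nat.mul_le_mul_left _ h1
  have hdown : ∀ j, k ≤ j → j < n → 2 ^ (n - (j + 1)) * n.choose (j + 1) ≤
      2 ^ (n - j) * n.choose j := by
    intro j hj hjn
    have h1 : n.choose (j + 1) ≤ 2 * n.choose j := by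
      have h3 := Nat.choose_succ_right_eq n j
      apply Nat.le_of_mul_le_mul_right (c := j + 1) _ (by omega)
      rw [h3, mul_assoc, mul_comm 2, mul_assoc]
      exact Nat.mul_le_mul_left _ (by omega)
    have h2 : 2 ^ (n - j) = 2 ^ (n - (j + 1)) * 2 := by
      rw [← pow_succ]
      congr 1
      omega
    rw [h2, mul_assoc]
    exact Nat.mul_le_mul_left _ h1
  have hup' : ∀ i j, i ≤ j → j ≤ k → 2 ^ (n - i) * n.choose i ≤ 2 ^ (n - j) * n.choose j := by
    intro i j hij
    induction j, hij using Nat.le_induction with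
    | base => intro _; exact le_rfl
    | succ j hij ih => intro hjk; exact (ih (by omega)).trans (hup j (by omega))
  have hdown' : ∀ j, k ≤ j → j ≤ n → 2 ^ (n - j) * n.choose j ≤ 2 ^ (n - k) * n.choose k := by
    intro j hkj
    induction j, hkj using Nat.le_induction with
    | base => intro _; exact le_rfl
    | succ j hkj ih => intro hjn; exact (hdown j hkj (by omega)).trans (ih (by omega))
  have hterm : ∀ j ∈ Finset.range (n + 1), 1 ^ j * 2 ^ (n - j) * n.choose j ≤
      2 ^ (n - k) * n.choose k := by
    intro j hj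
    rw [one_pow, one_mul]
    rcases le_total j k with h | h
    · exact hup' j k h le_rfl
    · exact hdown' j h (by have := Finset.mem_range.mp hj; omega)
  calc 3 ^ n = (1 + 2) ^ n := by norm_num
    _ = ∑ j ∈ Finset.range (n + 1), 1 ^ j * 2 ^ (n - j) * n.choose j := add_pow _ _ _
    _ ≤ ∑ j ∈ Finset.range (n + 1), 2 ^ (n - k) * n.choose k := Finset.sum_le_sum hterm
    _ = _ := by rw [Finset.sum_const, Finset.card_range, smul_eq_mul]

open MvPolynomial in
/-- **Exponential lower bound for circuits symmetric under all sign changes.** -/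
theorem exp_bound {F : Type*} [Field F] {n : ℕ} {V : Type*} [Fintype V] (h2 : (2 : F) ≠ 0)
    {rank : V → ℕ} {g : V → MvPolynomial (Fin n × Fin n) F} (hg : IsCircuit rank g)
    (hs : IsSymmetric g ⊤)
    (hv : ∀ σ : Equiv.Perm (Fin n), ∃ v, coeff (permMon σ) (g v) ≠ 0) :
    n.choose (n / 3) ≤ Fintype.card V := by
  by_cases hn : n < 2
  · have h1 : n / 3 = 0 := by omega
    rw [h1, Nat.choose_zero_right]
    obtain ⟨v, -⟩ := hv 1
    exact Fintype.card_pos_iff.mpr ⟨v⟩
  · obtain ⟨d, h3, h4, h5⟩ := lower_bound h2 hg (m := 2 * n / 3) (by omega) (by omega) ⊤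
      (wiseIndep_top _) hs hv
    exact (choose_ge (by omega) (by omega)).trans h5

end H529R2.SymPer
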