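import Pool.Agent.H529R2.SymPer.FunCore
import Pool.Agent.H529R2.SymPer.Exists
set_option autoImplicit false
set_option linter.unusedSectionVars false

/-! The lower bound for sign-symmetric computations with functions. -/

namespace H529R2.SymPer.Fn

open Finset

section

variable {F : Type*} [Field F] {n : ℕ} {V : Type*}

/-- two nodes are in the same orbit, up to scalars and functions of few signs -/
def rel (C : Subgroup (Fin n ⊕ Fin n → ℤˣ)) (k : ℕ) (g : V → Matrix (Fin n) (Fin n) ℤ → F)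
    (t t' : V) : Prop :=
  ∃ τ ∈ C, ∃ c : F, c ≠ 0 ∧ ∀ σ R, k < R.card →
    coef (g t') σ R = c * ((((∏ x ∈ rc σ R, τ x : ℤˣ) : ℤ) : F) * coef (g t) σ R)

theorem sgn_mul_self (u : ℤˣ) : (((u : ℤ)) : F) * ((u : ℤ) : F) = 1 := by
  rcases Int.units_eq_one_or u with h | h <;> simp [h]

theorem rel_equiv (C : Subgroup (Fin n ⊕ Fin n → ℤˣ)) (k : ℕ)
    (g : V → Matrix (Fin n) (Fin n) ℤ → F) : Equivalence (rel C k g) where
  refl t := ⟨1, C.one_mem, 1, one_ne_zero, fun σ R _ => by simp⟩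
  symm := by
    rintro t t' ⟨τ, hτ, c, hc, h⟩
    refine ⟨τ, hτ, c⁻¹, inv_ne_zero hc, fun σ R hR => ?_⟩
    rw [h σ R hR]
    have h1 := sgn_mul_self (F := F) (∏ x ∈ rc σ R, τ x)
    calc coef (g t) σ R = (c⁻¹ * c) * (((((∏ x ∈ rc σ R, τ x : ℤˣ) : ℤ) : F) *
          (((∏ x ∈ rc σ R, τ x : ℤˣ) : ℤ) : F)) * coef (g t) σ R) := by
          rw [h1, inv_mul_cancel₀ hc, one_mul, one_mul]
      _ = _ := by ring
  trans := by
    rintro t t' t'' ⟨τ, hτ, c, hc, h⟩ ⟨τ', hτ', c', hc', h'⟩
    refine ⟨τ' * τ, C.mul_mem hτ' hτ, c' * c, mul_ne_zero hc' hc, fun σ R hR => ?_⟩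
    rw [h' σ R hR, h σ R hR]
    have h1 : ∏ x ∈ rc σ R, (τ' * τ) x = (∏ x ∈ rc σ R, τ' x) * ∏ x ∈ rc σ R, τ x :=
      Finset.prod_mul_distrib
    rw [h1]
    push_cast
    ring

/-- a symmetric family provides related gates -/
theorem exists_rel (h2 : (2 : F) ≠ 0) {C : Subgroup (Fin n ⊕ Fin n → ℤˣ)} {k : ℕ}
    {D : Set (Matrix (Fin n) (Fin n) ℤ)} (hD : ∀ a σ, sp a σ ∈ D)
    {g : V → Matrix (Fin n) (Fin n) ℤ → F} (hs : IsSymmetric D k g C)
    {τ : Fin n ⊕ Fin n → ℤˣ} (hτ : τ ∈ C) (v : V) :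
    ∃ w, ∃ c : F, c ≠ 0 ∧ ∀ σ R, k < R.card →
      coef (g w) σ R = c * ((((∏ x ∈ rc σ R, τ x : ℤˣ) : ℤ) : F) * coef (g v) σ R) := by
  obtain ⟨w, c, hc, e, he, h⟩ := hs τ hτ v
  refine ⟨w, c, hc, fun σ R hR => ?_⟩
  have h1 : coef e σ R = 0 := by
    by_contra hne
    obtain ⟨f, hf, -⟩ := exists_of_lin h2 he hne hR
    exact hf
  have h3 : coef (g w) σ R = coef (c • (fun A => g v (flip τ A)) + e) σ R :=
    coef_congr R (fun a => h _ (hD a σ))
  rw [h3, coef_add, h1, add_zero, coef_smul, coef_flip]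

/-- the row and column sets of medium coefficients of a node -/
def J (m : ℕ) (g : V → Matrix (Fin n) (Fin n) ℤ → F) (v : V) (S : Finset (Fin n ⊕ Fin n)) :
    Prop :=
  ∃ σ R, rc σ R = S ∧ m < 2 * R.card ∧ R.card ≤ m ∧ coef (g v) σ R ≠ 0

theorem J_of_rel {C : Subgroup (Fin n ⊕ Fin n → ℤˣ)} {g : V → Matrix (Fin n) (Fin n) ℤ → F}
    {k m : ℕ} (hkm : 2 * k ≤ m) {t t' : V} (h : rel C k g t t') {S : Finset (Fin n ⊕ Fin n)}
    (hS : J m g t S) : J m g t' S := by
  obtain ⟨σ, R, h1, h2, h3, h4⟩ := hS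
  obtain ⟨τ, -, c, hc, h⟩ := h
  refine ⟨σ, R, h1, h2, h3, ?_⟩
  rw [h σ R (by omega)]
  exact mul_ne_zero hc (mul_ne_zero (sign_ne_zero _) h4)

theorem J_card {g : V → Matrix (Fin n) (Fin n) ℤ → F} {m : ℕ} {t : V}
    {S : Finset (Fin n ⊕ Fin n)} (hS : J m g t S) : S.card ≤ 2 * m := by
  obtain ⟨σ, R, h1, h2, h3, h4⟩ := hS
  rw [← h1, card_rc]
  omega

open Classical in
/-- **The counting argument for one orbit.** -/
theorem card_J_le [Fintype V] (h2 : (2 : F) ≠ 0) (C : Subgroup (Fin n ⊕ Fin n → ℤˣ)) {k m : ℕ}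
    (hkm : 2 * k ≤ m) (hC : WiseIndep (4 * m) C) {D : Set (Matrix (Fin n) (Fin n) ℤ)}
    (hD : ∀ a σ, sp a σ ∈ D) (g : V → Matrix (Fin n) (Fin n) ℤ → F)
    (hs : IsSymmetric D k g C)
    (v : V) : Fintype.card {S // J m g v S} ≤ Fintype.card {t // rel C k g v t} := by
  by_cases hne : Nonempty {S // J m g v S}
  swap
  · rw [not_nonempty_iff] at hne
    rw [Fintype.card_eq_zero]
    exact Nat.zero_le _
  obtain ⟨S0⟩ := hne
  let ch : Finset (Fin n ⊕ Fin n) → (C →* ℤˣ) := fun S =>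
    { toFun := fun τ => ∏ x ∈ S, τ.1 x
      map_one' := by simp
      map_mul' := fun τ τ' => by
        simp only [Subgroup.coe_mul, Pi.mul_apply]
        exact Finset.prod_mul_distrib }
  have hch : ∀ S (τ : C), ch S τ = ∏ x ∈ S, τ.1 x := fun _ _ => rfl
  have hq : ∀ τ : C, ∃ w : {t // rel C k g v t}, ∃ c : F, c ≠ 0 ∧ ∀ σ R, k < R.card →
      coef (g w.1) σ R = c * ((((∏ x ∈ rc σ R, τ.1 x : ℤˣ) : ℤ) : F) * coef (g v) σ R) := by
    intro τ
    obtain ⟨w, c, hc, h⟩ := exists_rel h2 hD hs τ.2 v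
    exact ⟨⟨w, τ.1, τ.2, c, hc, h⟩, c, hc, h⟩
  choose q hq using hq
  refine SymMM.card_le_of_chars (G := C) (fun S : {S // J m g v S} => ch S.1 * ch S0.1) ?_ q ?_
  · intro S S' h
    by_contra hSS
    have hSS' : S.1 ≠ S'.1 := fun h => hSS (Subtype.ext h)
    have hD' : (symmDiff S.1 S'.1).Nonempty := by
      rw [Finset.nonempty_iff_ne_empty]
      intro h0
      exact hSS' (symmDiff_eq_bot.mp h0)
    have hDc : (symmDiff S.1 S'.1).card ≤ 4 * m := by
      have h1 : (symmDiff S.1 S'.1).card ≤ (S.1 ∪ S'.1).card :=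
        Finset.card_le_card (fun x hx => by
          rcases Finset.mem_symmDiff.mp hx with h | h
          · exact Finset.mem_union_left _ h.1
          · exact Finset.mem_union_right _ h.1)
      have h3 := Finset.card_union_le S.1 S'.1
      have h4 := J_card S.2
      have h5 := J_card S'.2
      omega
    obtain ⟨τ, hτ, hprod⟩ := hC _ hD' hDc
    rw [prod_symmDiff] at hprod
    have h1 := DFunLike.congr_fun h (⟨τ, hτ⟩ : C)
    have h3 : ch S.1 ⟨τ, hτ⟩ = ch S'.1 ⟨τ, hτ⟩ := mul_right_cancel h1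
    rw [hch, hch] at h3
    simp only at h3
    rw [h3, Int.units_mul_self] at hprod
    exact absurd hprod (by decide)
  · intro S τ τ' h
    obtain ⟨c, hc, e1⟩ := hq τ
    obtain ⟨c', hc', e2⟩ := hq τ'
    rw [← h] at e2
    have key : ∀ S : {S // J m g v S}, c * (((ch S.1 τ : ℤˣ) : ℤ) : F) =
        c' * (((ch S.1 τ' : ℤˣ) : ℤ) : F) := by
      rintro ⟨S, σ, R, h1, h0, -, h4⟩
      have h5 := e1 σ R (by omega)
      have h6 := e2 σ R (by omega)
      rw [h5] at h6
      rw [← mul_assoc, ← mul_assoc] at h6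
      have h7 := mul_right_cancel₀ h4 h6
      simp only [hch]
      rw [← h1]
      exact h7
    have k1 := key S
    have k2 := key S0
    have k3 : (((ch S.1 τ * ch S0.1 τ' : ℤˣ) : ℤ) : F) =
        (((ch S.1 τ' * ch S0.1 τ : ℤˣ) : ℤ) : F) := by
      push_cast
      apply mul_left_cancel₀ (mul_ne_zero hc hc')
      linear_combination (c' * (((ch S0.1 τ' : ℤˣ) : ℤ) : F)) * k1 -
        (c' * (((ch S.1 τ' : ℤˣ) : ℤ) : F)) * k2
    have k4 := sign_inj h2 k3
    show ch S.1 τ * ch S0.1 τ = ch S.1 τ' * ch S0.1 τ'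
    calc ch S.1 τ * ch S0.1 τ = (ch S.1 τ * ch S0.1 τ') * (ch S0.1 τ' * ch S0.1 τ) := by
          rw [mul_assoc, ← mul_assoc (ch S0.1 τ') (ch S0.1 τ'), Int.units_mul_self, one_mul]
      _ = (ch S.1 τ' * ch S0.1 τ) * (ch S0.1 τ' * ch S0.1 τ) := by rw [k4]
      _ = (ch S.1 τ' * ch S0.1 τ') * (ch S0.1 τ * ch S0.1 τ) := by ac_rfl
      _ = ch S.1 τ' * ch S0.1 τ' := by rw [Int.units_mul_self, mul_one]

open Classical in
/-- the number of all row and column sets is at most the number of nodes -/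
theorem card_T_le [Fintype V] (h2 : (2 : F) ≠ 0) (C : Subgroup (Fin n ⊕ Fin n → ℤˣ)) {k m : ℕ}
    (hkm : 2 * k ≤ m) (hC : WiseIndep (4 * m) C) {D : Set (Matrix (Fin n) (Fin n) ℤ)}
    (hD : ∀ a σ, sp a σ ∈ D) (g : V → Matrix (Fin n) (Fin n) ℤ → F)
    (hs : IsSymmetric D k g C) :
    (Finset.univ.filter (fun S : Finset (Fin n ⊕ Fin n) => ∃ v, J m g v S)).card ≤
      Fintype.card V := by
  let s : Setoid V := ⟨rel C k g, rel_equiv C k g⟩
  calc (Finset.univ.filter (fun S : Finset (Fin n ⊕ Fin n) => ∃ v, J m g v S)).card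
      ≤ ((Finset.univ : Finset (Quotient s)).biUnion
          (fun q => Finset.univ.filter (fun S => J m g q.out S))).card := by
        apply Finset.card_le_card
        intro S hS
        obtain ⟨v, hv⟩ := (Finset.mem_filter.mp hS).2
        refine Finset.mem_biUnion.mpr ⟨Quotient.mk s v, Finset.mem_univ _, ?_⟩
        refine Finset.mem_filter.mpr ⟨Finset.mem_univ _, ?_⟩
        have hrel : rel C k g (Quotient.mk s v).out v := Quotient.mk_out (s := s) v
        exact J_of_rel hkm ((rel_equiv C k g).symm hrel) hv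
    _ ≤ ∑ q : Quotient s, (Finset.univ.filter (fun S => J m g q.out S)).card :=
        Finset.card_biUnion_le
    _ ≤ ∑ q : Quotient s, Fintype.card {t // rel C k g q.out t} := by
        refine Finset.sum_le_sum (fun q _ => ?_)
        rw [← Fintype.card_subtype]
        exact card_J_le h2 C hkm hC hD g hs q.out
    _ = ∑ q : Quotient s, (Finset.univ.filter (fun t' : V => Quotient.mk s t' = q)).card := by
        refine Finset.sum_congr rfl (fun q _ => ?_)
        rw [Fintype.card_subtype]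
        congr 1
        ext t'
        simp only [Finset.mem_filter, Finset.mem_univ, true_and]
        constructor
        · intro h
          have h1 : Quotient.mk s q.out = Quotient.mk s t' := Quotient.sound h
          rw [← h1, Quotient.out_eq]
        · intro h
          have h1 : Quotient.mk s q.out = Quotient.mk s t' := by rw [Quotient.out_eq, h]
          exact Quotient.exact h1
    _ = Fintype.card V := by
        rw [← Finset.card_eq_sum_card_fiberwise (fun _ _ => Finset.mem_univ _)]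
        exact Finset.card_univ

/-- **Lower bound for sign-symmetric computations.** -/
theorem lower_bound [Fintype V] (h2 : (2 : F) ≠ 0) {D : Set (Matrix (Fin n) (Fin n) ℤ)}
    (hD : ∀ a σ, sp a σ ∈ D) {k m : ℕ} (hkm : 2 * k ≤ m) (hmn : m < n) {rank : V → ℕ}
    {g : V → Matrix (Fin n) (Fin n) ℤ → F} (hg : IsCircuit D k rank g)
    (C : Subgroup (Fin n ⊕ Fin n → ℤˣ)) (hC : WiseIndep (4 * m) C) (hs : IsSymmetric D k g C)
    {f : Matrix (Fin n) (Fin n) ℤ → F} (hf : Computes D k g f) (hf0 : FullDegree f) :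
    ∃ d, m < 2 * d ∧ d ≤ m ∧ n.choose d ≤ Fintype.card V := by
  classical
  by_contra hcon
  push Not at hcon
  set T := Finset.univ.filter (fun S : Finset (Fin n ⊕ Fin n) => ∃ v, J m g v S) with hT
  have hTV : T.card ≤ Fintype.card V := card_T_le h2 C hkm hC hD g hs
  have hex : ∀ σ : Equiv.Perm (Fin n), ∃ R : Finset (Fin n), m < 2 * R.card ∧ R.card ≤ m ∧
      rc σ R ∈ T := by
    intro σ
    obtain ⟨p, hp, hpf⟩ := hf
    have h1 : coef p σ Finset.univ ≠ 0 := by
      rw [← coef_congr (f := f) Finset.univ (fun a => hpf _ (hD a σ))]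
      exact hf0 σ
    have hcard : (Finset.univ : Finset (Fin n)).card = n := by
      rw [Finset.card_univ, Fintype.card_fin]
    obtain ⟨_, ⟨v, rfl⟩, hv⟩ := exists_of_lin h2 hp h1 (by omega)
    obtain ⟨u, R, h3, h4, h5⟩ := exists_mid h2 hD hg hkm σ _ v rfl _ hv (by omega)
    exact ⟨R, h4, h5, Finset.mem_filter.mpr ⟨Finset.mem_univ _, u, σ, R, rfl, h4, h5, h3⟩⟩
  choose R hR1 hR2 hR3 using hex
  have hcount : (Finset.univ : Finset (Equiv.Perm (Fin n))).card =
      ∑ S ∈ T, (Finset.univ.filter (fun σ => rc σ (R σ) = S)).card :=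
    Finset.card_eq_sum_card_fiberwise (fun σ _ => hR3 σ)
  rw [Finset.card_univ, Fintype.card_perm, Fintype.card_fin] at hcount
  have hfib : ∀ S ∈ T, (Fintype.card V + 1) *
      (Finset.univ.filter (fun σ => rc σ (R σ) = S)).card ≤ n.factorial := by
    intro S hS
    obtain ⟨v, σ0, R0, e1, e2, e3, e4⟩ := (Finset.mem_filter.mp hS).2
    have hle : (Finset.univ.filter (fun σ => rc σ (R σ) = S)).card ≤
        R0.card.factorial * (n - R0.card).factorial := by
      refine le_trans (Finset.card_le_card ?_) (card_perm_le R0 (R0.map σ0.toEmbedding)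
        (Finset.card_map _))
      intro σ hσ
      have h1 := (Finset.mem_filter.mp hσ).2
      rw [← e1] at h1
      have h3 : R σ = R0 := by
        have := congrArg Finset.toLeft h1
        simpa [rc] using this
      have h4 : (R σ).map σ.toEmbedding = R0.map σ0.toEmbedding := by
        have := congrArg Finset.toRight h1
        simpa [rc] using this
      rw [h3] at h4
      exact Finset.mem_filter.mpr ⟨Finset.mem_univ _, h4⟩
    have hd := hcon R0.card e2 e3
    calc (Fintype.card V + 1) * (Finset.univ.filter (fun σ => rc σ (R σ) = S)).card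
        ≤ n.choose R0.card * (R0.card.factorial * (n - R0.card).factorial) :=
          Nat.mul_le_mul hd hle
      _ = n.factorial := by
          rw [← mul_assoc]
          exact Nat.choose_mul_factorial_mul_factorial (by omega)
  have h3 : (Fintype.card V + 1) * n.factorial ≤ T.card * n.factorial := by
    calc (Fintype.card V + 1) * n.factorial
        = ∑ S ∈ T, (Fintype.card V + 1) *
            (Finset.univ.filter (fun σ => rc σ (R σ) = S)).card := by
          rw [← Finset.mul_sum, ← hcount]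
      _ ≤ ∑ S ∈ T, n.factorial := Finset.sum_le_sum hfib
      _ = T.card * n.factorial := by rw [Finset.sum_const, smul_eq_mul]
  have h4 := Nat.le_of_mul_le_mul_right h3 (Nat.factorial_pos n)
  omega

end

end H529R2.SymPer.Fn
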