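import Pool.Agent.H529R2.SymPer.FunDefs
import Pool.Agent.H529R2.SymPer.Bound
set_option autoImplicit false
set_option linter.unusedSectionVars false

/-! Fourier coefficients on signed permutation matrices. -/

namespace H529R2.SymPer.Fn

open Finset

section

variable {F : Type*} [Field F] {n : ℕ} {V : Type*}

/-- Fourier coefficients -/
def coef (f : Matrix (Fin n) (Fin n) ℤ → F) (σ : Equiv.Perm (Fin n)) (R : Finset (Fin n)) : F :=
  ∑ a : Fin n → ℤˣ, (((∏ i ∈ R, a i : ℤˣ) : ℤ) : F) * f (sp a σ)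

theorem coef_add (f g : Matrix (Fin n) (Fin n) ℤ → F) (σ : Equiv.Perm (Fin n))
    (R : Finset (Fin n)) : coef (f + g) σ R = coef f σ R + coef g σ R := by
  rw [coef, coef, coef, ← Finset.sum_add_distrib]
  refine Finset.sum_congr rfl (fun a _ => ?_)
  rw [Pi.add_apply, mul_add]

theorem coef_smul (c : F) (f : Matrix (Fin n) (Fin n) ℤ → F) (σ : Equiv.Perm (Fin n))
    (R : Finset (Fin n)) : coef (c • f) σ R = c * coef f σ R := by
  rw [coef, coef, Finset.mul_sum]
  refine Finset.sum_congr rfl (fun a _ => ?_)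
  rw [Pi.smul_apply, smul_eq_mul]
  ring

theorem coef_congr {f g : Matrix (Fin n) (Fin n) ℤ → F} {σ : Equiv.Perm (Fin n)}
    (R : Finset (Fin n)) (h : ∀ a, f (sp a σ) = g (sp a σ)) : coef f σ R = coef g σ R := by
  rw [coef, coef]
  exact Finset.sum_congr rfl (fun a _ => by rw [h])

theorem exists_of_span {S : Set (Matrix (Fin n) (Fin n) ℤ → F)} {p : Matrix (Fin n) (Fin n) ℤ → F}
    (hp : p ∈ Submodule.span F S) {σ : Equiv.Perm (Fin n)} {R : Finset (Fin n)}
    (h : coef p σ R ≠ 0) : ∃ f ∈ S, coef f σ R ≠ 0 := by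
  revert h
  induction hp using Submodule.span_induction with
  | mem x hx => exact fun h => ⟨x, hx, h⟩
  | zero =>
    intro h
    exact absurd (by simp [coef]) h
  | add x y _ _ hx hy =>
    intro h
    rw [coef_add] at h
    by_cases h0 : coef x σ R = 0
    · rw [h0, zero_add] at h
      exact hy h
    · exact hx h0
  | smul a x _ hx =>
    intro h
    rw [coef_smul] at h
    exact hx (right_ne_zero_of_mul h)

theorem orth (c : Fin n → ℤˣ) :
    ∑ R : Finset (Fin n), (((∏ i ∈ R, c i : ℤˣ) : ℤ) : F) = if c = 1 then 2 ^ n else 0 := by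
  have h1 : ∑ R : Finset (Fin n), (((∏ i ∈ R, c i : ℤˣ) : ℤ) : F) =
      ∏ i : Fin n, (1 + (((c i : ℤˣ) : ℤ) : F)) := by
    rw [Finset.prod_one_add]
    rw [Finset.powerset_univ]
    refine Finset.sum_congr rfl (fun R _ => ?_)
    rw [Units.coe_prod, Int.cast_prod]
  rw [h1]
  split_ifs with h
  · subst h
    simp only [Pi.one_apply, Units.val_one, Int.cast_one]
    rw [Finset.prod_const, Finset.card_univ, Fintype.card_fin]
    norm_num
  · obtain ⟨i, hi⟩ : ∃ i, c i ≠ 1 := by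
      by_contra hcon
      push Not at hcon
      exact h (funext hcon)
    apply Finset.prod_eq_zero (Finset.mem_univ i)
    rcases Int.units_eq_one_or (c i) with h' | h'
    · exact absurd h' hi
    · rw [h']
      push_cast
      ring

theorem chi_symmDiff (R1 R : Finset (Fin n)) (a b : Fin n → ℤˣ) :
    ((∏ i ∈ R1, a i) * ∏ i ∈ symmDiff R1 R, b i : ℤˣ) =
      (∏ i ∈ R1, (a * b) i) * ∏ i ∈ R, b i := by
  rw [prod_symmDiff, ← mul_assoc, ← Finset.prod_mul_distrib]
  rfl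

/-- convolution -/
theorem coef_mul (p q : Matrix (Fin n) (Fin n) ℤ → F) (σ : Equiv.Perm (Fin n))
    (R : Finset (Fin n)) :
    ∑ R1 : Finset (Fin n), coef p σ R1 * coef q σ (symmDiff R1 R) =
      2 ^ n * coef (p * q) σ R := by
  have h1 : ∀ R1 : Finset (Fin n), coef p σ R1 * coef q σ (symmDiff R1 R) =
      ∑ a : Fin n → ℤˣ, ∑ b : Fin n → ℤˣ, (((∏ i ∈ R1, (a * b) i : ℤˣ) : ℤ) : F) *
        (p (sp a σ) * q (sp b σ) * (((∏ i ∈ R, b i : ℤˣ) : ℤ) : F)) := by
    intro R1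
    rw [coef, coef, Finset.sum_mul_sum]
    refine Finset.sum_congr rfl (fun a _ => Finset.sum_congr rfl (fun b _ => ?_))
    have := congrArg (fun u : ℤˣ => (((u : ℤ)) : F)) (chi_symmDiff R1 R a b)
    simp only [Units.val_mul, Int.cast_mul] at this
    linear_combination (p (sp a σ) * q (sp b σ)) * this
  simp only [h1]
  rw [Finset.sum_comm]
  have h2 : ∀ a : Fin n → ℤˣ, ∑ R1 : Finset (Fin n), ∑ b : Fin n → ℤˣ,
      (((∏ i ∈ R1, (a * b) i : ℤˣ) : ℤ) : F) *
        (p (sp a σ) * q (sp b σ) * (((∏ i ∈ R, b i : ℤˣ) : ℤ) : F)) =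
      2 ^ n * ((((∏ i ∈ R, a i : ℤˣ) : ℤ) : F) * (p (sp a σ) * q (sp a σ))) := by
    intro a
    rw [Finset.sum_comm]
    rw [Finset.sum_eq_single a]
    · rw [← Finset.sum_mul, orth, if_pos]
      · ring
      · funext i
        simp [Int.units_mul_self]
    · intro b _ hb
      rw [← Finset.sum_mul, orth, if_neg, zero_mul]
      intro h
      apply hb
      funext i
      have h3 := congrFun h i
      simp only [Pi.mul_apply, Pi.one_apply] at h3
      have h4 : a i = (b i)⁻¹ := eq_inv_of_mul_eq_one_left h3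
      rw [h4]
      simp
    · intro h; exact absurd (Finset.mem_univ _) h
  rw [Finset.sum_congr rfl (fun a _ => h2 a), ← Finset.mul_sum]
  rfl

theorem exists_of_mul (p q : Matrix (Fin n) (Fin n) ℤ → F) {σ : Equiv.Perm (Fin n)}
    {R : Finset (Fin n)} (h2 : (2 : F) ≠ 0) (h : coef (p * q) σ R ≠ 0) :
    ∃ R1 R2 : Finset (Fin n), coef p σ R1 ≠ 0 ∧ coef q σ R2 ≠ 0 ∧
      R.card ≤ R1.card + R2.card := by
  have h1 : (2 : F) ^ n * coef (p * q) σ R ≠ 0 := mul_ne_zero (pow_ne_zero _ h2) h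
  rw [← coef_mul] at h1
  obtain ⟨R1, -, hR⟩ := Finset.exists_ne_zero_of_sum_ne_zero h1
  refine ⟨R1, symmDiff R1 R, left_ne_zero_of_mul hR, right_ne_zero_of_mul hR, ?_⟩
  have h3 : R ⊆ R1 ∪ symmDiff R1 R := by
    intro x hx
    by_cases h : x ∈ R1
    · exact Finset.mem_union_left _ h
    · exact Finset.mem_union_right _ (Finset.mem_symmDiff.mpr (Or.inr ⟨hx, h⟩))
  exact (Finset.card_le_card h3).trans (Finset.card_union_le _ _)

theorem flip_sp (τ : Fin n ⊕ Fin n → ℤˣ) (a : Fin n → ℤˣ) (σ : Equiv.Perm (Fin n)) :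
    flip τ (sp a σ) = sp (a * fun i => τ (Sum.inl i) * τ (Sum.inr (σ i))) σ := by
  funext i j
  simp only [flip, sp, Pi.mul_apply]
  split_ifs with h
  · subst h
    rw [← Units.val_mul]
    congr 1
    ac_rfl
  · simp

theorem coef_flip (τ : Fin n ⊕ Fin n → ℤˣ) (f : Matrix (Fin n) (Fin n) ℤ → F)
    (σ : Equiv.Perm (Fin n)) (R : Finset (Fin n)) :
    coef (fun A => f (flip τ A)) σ R = (((∏ x ∈ rc σ R, τ x : ℤˣ) : ℤ) : F) * coef f σ R := by
  rw [coef, coef, Finset.mul_sum]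
  simp only [flip_sp]
  set b : Fin n → ℤˣ := fun i => τ (Sum.inl i) * τ (Sum.inr (σ i)) with hb
  rw [← Equiv.sum_comp (Equiv.mulRight b) (fun a => (((∏ x ∈ rc σ R, τ x : ℤˣ) : ℤ) : F) *
    ((((∏ i ∈ R, a i : ℤˣ) : ℤ) : F) * f (sp a σ)))]
  refine Finset.sum_congr rfl (fun a _ => ?_)
  simp only [Equiv.coe_mulRight]
  have h1 : ∏ x ∈ rc σ R, τ x = ∏ i ∈ R, b i := by
    rw [rc, Finset.prod_disjSum, Finset.prod_map, hb, Finset.prod_mul_distrib]
    rfl
  have h2 : (∏ x ∈ rc σ R, τ x) * ∏ i ∈ R, (a * b) i = ∏ i ∈ R, a i := by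
    have h3 : ∏ i ∈ R, (a * b) i = (∏ i ∈ R, a i) * ∏ i ∈ R, b i := Finset.prod_mul_distrib
    rw [h1, h3, mul_comm, mul_assoc, Int.units_mul_self, mul_one]
  rw [← h2]
  push_cast
  ring

theorem coef_few {k : ℕ} {f : Matrix (Fin n) (Fin n) ℤ → F} (hf : Few k f)
    {σ : Equiv.Perm (Fin n)} {R : Finset (Fin n)} (h : coef f σ R ≠ 0) (h2 : (2 : F) ≠ 0) :
    R.card ≤ k := by
  classical
  by_contra hcon
  obtain ⟨R0, hR0, hdep⟩ := hf σ
  obtain ⟨i, hi, hi0⟩ : ∃ i ∈ R, i ∉ R0 := by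
    by_contra hno
    push Not at hno
    exact hcon ((Finset.card_le_card hno).trans hR0)
  apply h
  have key : coef f σ R = - coef f σ R := by
    set e : Fin n → ℤˣ := Function.update 1 i (-1) with he
    have h3 : ∏ j ∈ R, e j = -1 := by
      rw [he, Finset.prod_update_of_mem hi]
      simp
    conv_lhs => rw [coef, ← Equiv.sum_comp (Equiv.mulRight e)]
    rw [coef, ← Finset.sum_neg_distrib]
    refine Finset.sum_congr rfl (fun a _ => ?_)
    simp only [Equiv.coe_mulRight]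
    have h4 : f (sp (a * e) σ) = f (sp a σ) := by
      apply hdep
      intro j hj
      have : j ≠ i := fun h => hi0 (h ▸ hj)
      simp [he, Function.update_of_ne this]
    have h5 : ∏ j ∈ R, (a * e) j = - ∏ j ∈ R, a j := by
      simp only [Pi.mul_apply]
      rw [Finset.prod_mul_distrib, h3, mul_neg_one]
    rw [h4, h5]
    push_cast
    ring
  have h6 : 2 * coef f σ R = 0 := by linear_combination key
  exact (mul_eq_zero.mp h6).resolve_left h2

/-- large coefficients of linear combinations come from gates -/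
theorem exists_of_lin (h2 : (2 : F) ≠ 0) {k : ℕ} {G : Set (Matrix (Fin n) (Fin n) ℤ → F)}
    {p : Matrix (Fin n) (Fin n) ℤ → F} (hp : Lin k G p) {σ : Equiv.Perm (Fin n)}
    {R : Finset (Fin n)} (h : coef p σ R ≠ 0) (hk : k < R.card) :
    ∃ f ∈ G, coef f σ R ≠ 0 := by
  obtain ⟨f, hf, hne⟩ := exists_of_span hp h
  rcases hf with hf | hf
  · have := coef_few hf hne h2
    omega
  · exact ⟨f, hf, hne⟩

/-- Every large coefficient of a node forces a medium one of some node. -/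
theorem exists_mid (h2 : (2 : F) ≠ 0) {D : Set (Matrix (Fin n) (Fin n) ℤ)}
    (hD : ∀ a σ, sp a σ ∈ D) {k : ℕ} {rank : V → ℕ}
    {g : V → Matrix (Fin n) (Fin n) ℤ → F} (hg : IsCircuit D k rank g) {m : ℕ}
    (hm : 2 * k ≤ m) (σ : Equiv.Perm (Fin n)) :
    ∀ (l : ℕ) (v : V), rank v = l → ∀ R, coef (g v) σ R ≠ 0 → m < R.card →
      ∃ u R', coef (g u) σ R' ≠ 0 ∧ m < 2 * R'.card ∧ R'.card ≤ m := by
  intro l
  induction l using Nat.strong_induction_on with
  | _ l ih =>
    intro v hv R hR hcard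
    obtain ⟨l', p, q, hl, hp, hq, hpq⟩ := hg v
    have h1 : coef l' σ R + coef (p * q) σ R ≠ 0 := by
      rw [← coef_add, ← coef_congr (f := g v) R (fun a => hpq _ (hD a σ))]
      exact hR
    have step : ∀ p, Lin k {f | ∃ u, rank u < rank v ∧ f = g u} p →
        ∀ R', coef p σ R' ≠ 0 → k < R'.card → ∃ u, rank u < rank v ∧ coef (g u) σ R' ≠ 0 := by
      intro p hp R' hR' hk
      obtain ⟨f, ⟨u, hu, rfl⟩, hne⟩ := exists_of_lin h2 hp hR' hk
      exact ⟨u, hu, hne⟩
    by_cases c0 : coef l' σ R ≠ 0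
    · obtain ⟨u, hu, hne⟩ := step l' hl R c0 (by omega)
      exact ih _ (hv ▸ hu) u rfl R hne hcard
    push Not at c0
    rw [c0, zero_add] at h1
    obtain ⟨R1, R2, h3, h4, h5⟩ := exists_of_mul p q h2 h1
    by_cases c1 : m < R1.card
    · obtain ⟨u, hu, hne⟩ := step p hp R1 h3 (by omega)
      exact ih _ (hv ▸ hu) u rfl R1 hne c1
    by_cases c2 : m < R2.card
    · obtain ⟨u, hu, hne⟩ := step q hq R2 h4 (by omega)
      exact ih _ (hv ▸ hu) u rfl R2 hne c2
    by_cases c3 : R2.card ≤ R1.card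
    · obtain ⟨u, hu, hne⟩ := step p hp R1 h3 (by omega)
      exact ⟨u, R1, hne, by omega, by omega⟩
    · obtain ⟨u, hu, hne⟩ := step q hq R2 h4 (by omega)
      exact ⟨u, R2, hne, by omega, by omega⟩

end

end H529R2.SymPer.Fn
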