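import Mathlib
set_option autoImplicit false

/-! Definitions: computations with functions of a matrix which are invariant under sign changes of
the rows and columns of the matrix. -/

namespace H529R2.SymPer.Fn

/-- the signed permutation matrix with the entries `a i` at the places `(i, σ i)` -/
def sp {n : ℕ} (a : Fin n → ℤˣ) (σ : Equiv.Perm (Fin n)) : Matrix (Fin n) (Fin n) ℤ :=
  fun i j => if σ i = j then ((a i : ℤˣ) : ℤ) else 0

/-- the sign changes `A i j ↦ (sign of row i) (sign of column j) A i j` -/
def flip {n : ℕ} (τ : Fin n ⊕ Fin n → ℤˣ) (A : Matrix (Fin n) (Fin n) ℤ) :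
    Matrix (Fin n) (Fin n) ℤ :=
  fun i j => (((τ (Sum.inl i) * τ (Sum.inr j) : ℤˣ) : ℤ)) * A i j

/-- `f` depends on at most `k` signs: for every `σ` there are `k` rows such that the value of `f` at a
signed permutation matrix with pattern `σ` depends only on the signs in these rows.  (Every function
of `k` rows, every function of `k` columns, every product of `k` entries and every function of the
zero pattern of the matrix has this property.) -/
def Few {F : Type*} {n : ℕ} (k : ℕ) (f : Matrix (Fin n) (Fin n) ℤ → F) : Prop :=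
  ∀ σ : Equiv.Perm (Fin n), ∃ R : Finset (Fin n), R.card ≤ k ∧
    ∀ a b : Fin n → ℤˣ, (∀ i ∈ R, a i = b i) → f (sp a σ) = f (sp b σ)

/-- `p` is a linear combination of functions which depend on at most `k` signs and of functions in
`G`. -/
def Lin {F : Type*} [Field F] {n : ℕ} (k : ℕ) (G : Set (Matrix (Fin n) (Fin n) ℤ → F))
    (p : Matrix (Fin n) (Fin n) ℤ → F) : Prop :=
  p ∈ Submodule.span F ({f | Few k f} ∪ G)

/-- The functions `g v` are the results of the gates of a circuit, for inputs in `D`: each `g v` is of
the form `l + p q` where `l`, `p` and `q` are linear combinations of functions which depend on at most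
`k` signs and of results of gates of smaller rank.  (So linear operations and functions of few signs
are free; products, and arbitrary Boolean functions of two bits, are gates.) -/
def IsCircuit {F : Type*} [Field F] {n : ℕ} {V : Type*}
    (D : Set (Matrix (Fin n) (Fin n) ℤ)) (k : ℕ) (rank : V → ℕ)
    (g : V → Matrix (Fin n) (Fin n) ℤ → F) : Prop :=
  ∀ v : V, ∃ l p q, Lin k {f | ∃ u, rank u < rank v ∧ f = g u} l ∧
    Lin k {f | ∃ u, rank u < rank v ∧ f = g u} p ∧
    Lin k {f | ∃ u, rank u < rank v ∧ f = g u} q ∧ ∀ A ∈ D, g v A = l A + p A * q A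

/-- With every `g v` and every `τ` in `C`, the function `A ↦ g v (flip τ A)` is on `D` one of the
functions `g w`, up to a nonzero scalar and up to a linear combination of functions which depend on at
most `k` signs. -/
def IsSymmetric {F : Type*} [Field F] {n : ℕ} {V : Type*}
    (D : Set (Matrix (Fin n) (Fin n) ℤ)) (k : ℕ) (g : V → Matrix (Fin n) (Fin n) ℤ → F)
    (C : Subgroup (Fin n ⊕ Fin n → ℤˣ)) : Prop :=
  ∀ τ ∈ C, ∀ v, ∃ w, ∃ c : F, c ≠ 0 ∧ ∃ e, Lin k ∅ e ∧
    ∀ A ∈ D, g w A = c * g v (flip τ A) + e A

/-- `f` is, for inputs in `D`, a linear combination of functions which depend on at most `k` signs and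
of the functions `g v`. -/
def Computes {F : Type*} [Field F] {n : ℕ} {V : Type*}
    (D : Set (Matrix (Fin n) (Fin n) ℤ)) (k : ℕ) (g : V → Matrix (Fin n) (Fin n) ℤ → F)
    (f : Matrix (Fin n) (Fin n) ℤ → F) : Prop :=
  ∃ p, Lin k (Set.range g) p ∧ ∀ A ∈ D, f A = p A

/-- For every pattern `σ` the function `f` really depends on all `n` signs: the Fourier coefficient of
degree `n` of `a ↦ f (sp a σ)` does not vanish. -/
def FullDegree {F : Type*} [Field F] {n : ℕ} (f : Matrix (Fin n) (Fin n) ℤ → F) : Prop :=
  ∀ σ : Equiv.Perm (Fin n),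
    ∑ a : Fin n → ℤˣ, (((∏ i, a i : ℤˣ) : ℤ) : F) * f (sp a σ) ≠ 0

/-- A group of sign vectors is `t`-wise independent: for every set of at least one and at most `t`
indices some `τ` in the group has product `-1` over this set. -/
def WiseIndep {ι : Type*} (t : ℕ) (C : Subgroup (ι → ℤˣ)) : Prop :=
  ∀ S : Finset ι, S.Nonempty → S.card ≤ t → ∃ τ ∈ C, ∏ i ∈ S, τ i = -1

end H529R2.SymPer.Fn
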