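import Pool.Agent.H529R2.SymPer.Exists
set_option autoImplicit false
set_option linter.unusedSectionVars false

/-! Glynn's formula gives a sign-symmetric circuit for the permanent. -/

namespace H529R2.SymPer

open Finset MvPolynomial

variable {F : Type*} [Field F] {n : ℕ}

/-- the linear forms -/
noncomputable def L (F : Type*) [Field F] {n : ℕ} (i : Fin n) (δ : Fin n → ℤˣ) :
    MvPolynomial (Fin n × Fin n) F :=
  ∑ j, C ((δ j : ℤ) : F) * X (i, j)

/-- the partial products -/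
noncomputable def P (F : Type*) [Field F] {n : ℕ} (k : ℕ) (δ : Fin n → ℤˣ) :
    MvPolynomial (Fin n × Fin n) F :=
  ∏ i ∈ Finset.univ.filter (fun i : Fin n => (i : ℕ) < k), L F i δ

/-- the signed count of sign vectors -/
def W (f : Fin n → Fin n) : ℤ := ∑ δ : Fin n → ℤˣ, ((∏ j, δ j : ℤˣ) : ℤ) * ((∏ i, δ (f i) : ℤˣ) : ℤ)

theorem W_bij (σ : Equiv.Perm (Fin n)) : W (⇑σ) = 2 ^ n := by
  have h : ∀ δ : Fin n → ℤˣ, ((∏ j, δ j : ℤˣ) : ℤ) * ((∏ i, δ (σ i) : ℤˣ) : ℤ) = 1 := by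
    intro δ
    rw [Equiv.prod_comp σ δ, ← Units.val_mul, Int.units_mul_self]
    rfl
  rw [W, Finset.sum_congr rfl (fun δ _ => h δ)]
  simp

theorem W_not_surj (f : Fin n → Fin n) (j0 : Fin n) (hj : ∀ i, f i ≠ j0) : W f = 0 := by
  apply Finset.sum_involution (fun δ _ => Function.update δ j0 (-δ j0))
  · intro δ _
    have h1 : ∏ j, Function.update δ j0 (-δ j0) j = - ∏ j, δ j := by
      rw [Finset.prod_update_of_mem (Finset.mem_univ _)]
      rw [← Finset.mul_prod_erase Finset.univ δ (Finset.mem_univ j0)]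
      rw [Finset.sdiff_singleton_eq_erase, neg_mul]
    have h2 : ∀ i, Function.update δ j0 (-δ j0) (f i) = δ (f i) := fun i =>
      Function.update_of_ne (hj i) _ _
    simp only [h2]
    rw [h1]
    push_cast
    ring
  · intro δ _ _ h
    have := congrFun h j0
    rw [Function.update_self] at this
    rcases Int.units_eq_one_or (δ j0) with h | h <;> rw [h] at this <;> revert this <;> decide
  · intro δ _
    simp
  · intro δ _
    simp

theorem glynn : ∑ δ : Fin n → ℤˣ, C (((∏ j, δ j : ℤˣ) : ℤ) : F) * P F n δ =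
    C (2 ^ n : F) * per F n := by
  have hP : ∀ δ : Fin n → ℤˣ, P F n δ = ∑ f : Fin n → Fin n,
      C (((∏ i, δ (f i) : ℤˣ) : ℤ) : F) * ∏ i, X (i, f i) := by
    intro δ
    have h1 : (Finset.univ.filter (fun i : Fin n => (i : ℕ) < n)) = Finset.univ := by
      ext i; simp
    rw [P, h1]
    simp only [L]
    rw [Finset.prod_univ_sum, Fintype.piFinset_univ]
    refine Finset.sum_congr rfl (fun f _ => ?_)
    rw [Finset.prod_mul_distrib]
    congr 1
    rw [Units.coe_prod, Int.cast_prod]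
    exact (map_prod C _ _).symm
  have h2 : ∑ δ : Fin n → ℤˣ, C (((∏ j, δ j : ℤˣ) : ℤ) : F) * P F n δ =
      ∑ f : Fin n → Fin n, C ((W f : ℤ) : F) * ∏ i, X (i, f i) := by
    simp only [hP, Finset.mul_sum]
    rw [Finset.sum_comm]
    refine Finset.sum_congr rfl (fun f _ => ?_)
    rw [W, Int.cast_sum, map_sum, Finset.sum_mul]
    refine Finset.sum_congr rfl (fun δ _ => ?_)
    rw [← mul_assoc, ← map_mul]
    congr 2
    push_cast
    ring
  rw [h2, per, Finset.mul_sum]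
  symm
  have h3 : ∑ σ : Equiv.Perm (Fin n), C (2 ^ n : F) * ∏ i, X (i, σ i) =
      ∑ f ∈ Finset.univ.map (⟨fun σ : Equiv.Perm (Fin n) => (⇑σ), fun a b h =>
        Equiv.coe_fn_injective h⟩ : Equiv.Perm (Fin n) ↪ (Fin n → Fin n)),
        C ((W f : ℤ) : F) * ∏ i, X (i, f i) := by
    rw [Finset.sum_map]
    refine Finset.sum_congr rfl (fun σ _ => ?_)
    show _ = C ((W (⇑σ) : ℤ) : F) * _
    rw [W_bij]
    push_cast
    rfl
  rw [h3]
  apply Finset.sum_subset (Finset.subset_univ _)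
  intro f _ hf
  have : ¬ Function.Surjective f := by
    intro hs
    apply hf
    refine Finset.mem_map.mpr ⟨Equiv.ofBijective f ⟨Finite.injective_iff_surjective.mpr hs, hs⟩,
      Finset.mem_univ _, ?_⟩
    rfl
  rw [Function.Surjective] at this
  push Not at this
  obtain ⟨j0, hj0⟩ := this
  rw [W_not_surj f j0 hj0]
  simp

/-- the nodes of Glynn's circuit -/
abbrev GV (n : ℕ) := (Fin n × (Fin n → ℤˣ)) ⊕ ((Fin (n + 1) × (Fin n → ℤˣ)) ⊕ Unit)

/-- the polynomials at the nodes -/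
noncomputable def gl (F : Type*) [Field F] (n : ℕ) : GV n → MvPolynomial (Fin n × Fin n) F
  | Sum.inl (i, δ) => L F i δ
  | Sum.inr (Sum.inl (k, δ)) => P F k δ
  | Sum.inr (Sum.inr _) => per F n

/-- the ranks -/
def glRank (n : ℕ) : GV n → ℕ
  | Sum.inl _ => 0
  | Sum.inr (Sum.inl (k, _)) => k + 1
  | Sum.inr (Sum.inr _) => n + 2

theorem card_GV (n : ℕ) : Fintype.card (GV n) = (2 * n + 1) * 2 ^ n + 1 := by
  simp only [Fintype.card_sum, Fintype.card_prod, Fintype.card_fin, Fintype.card_fun,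
    Fintype.card_unit, Fintype.card_units_int]
  ring

theorem P_succ {k : ℕ} (hk : k < n) (δ : Fin n → ℤˣ) : P F (k + 1) δ = P F k δ * L F ⟨k, hk⟩ δ := by
  have : (Finset.univ.filter (fun i : Fin n => (i : ℕ) < k + 1)) =
      insert ⟨k, hk⟩ (Finset.univ.filter (fun i : Fin n => (i : ℕ) < k)) := by
    ext i
    simp only [Finset.mem_filter, Finset.mem_univ, true_and, Finset.mem_insert, Fin.ext_iff]
    omega
  rw [P, this, Finset.prod_insert (by simp), mul_comm]
  rfl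

theorem gl_isCircuit (h2 : (2 : F) ≠ 0) : IsCircuit (glRank n) (gl F n) := by
  rintro (⟨i, δ⟩ | ⟨k, δ⟩ | u)
  · left
    show L F i δ ∈ _
    rw [L]
    refine Submodule.sum_mem _ (fun j _ => ?_)
    rw [← smul_eq_C_mul]
    exact Submodule.smul_mem _ _ (Submodule.subset_span (Or.inl (Or.inr ⟨(i, j), rfl⟩)))
  · obtain ⟨k, hk⟩ := k
    rcases k with _ | k
    · left
      show P F 0 δ ∈ _
      have : P F 0 δ = 1 := by simp [P]
      rw [this]
      exact Submodule.subset_span (Or.inl (Or.inl rfl))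
    · right
      refine ⟨Sum.inr (Sum.inl (⟨k, by omega⟩, δ)), Sum.inl (⟨k, by omega⟩, δ), ?_, ?_, ?_⟩
      · show k + 1 < k + 1 + 1
        omega
      · show 0 < k + 1 + 1
        omega
      · exact P_succ (by omega) δ
  · left
    show per F n ∈ _
    have h : per F n = ∑ δ : Fin n → ℤˣ,
        ((2 ^ n : F)⁻¹ * (((∏ j, δ j : ℤˣ) : ℤ) : F)) • P F n δ := by
      have h1 : per F n = (2 ^ n : F)⁻¹ • (C (2 ^ n : F) * per F n) := by
        rw [← smul_eq_C_mul, smul_smul, inv_mul_cancel₀ (pow_ne_zero _ h2), one_smul]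
      rw [h1, ← glynn, Finset.smul_sum]
      refine Finset.sum_congr rfl (fun δ _ => ?_)
      rw [← smul_eq_C_mul, smul_smul]
    rw [h]
    refine Submodule.sum_mem _ (fun δ _ => ?_)
    refine Submodule.smul_mem _ _ (Submodule.subset_span (Or.inr
      ⟨Sum.inr (Sum.inl (⟨n, by omega⟩, δ)), ?_, rfl⟩))
    show n + 1 < n + 2
    omega

theorem flip_L (τ : Fin n ⊕ Fin n → ℤˣ) (i : Fin n) (δ : Fin n → ℤˣ) :
    flip τ (L F i δ) = C (((τ (Sum.inl i) : ℤˣ) : ℤ) : F) * L F i (fun j => δ j * τ (Sum.inr j)) := by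
  rw [flip, L, L, map_sum, Finset.mul_sum]
  refine Finset.sum_congr rfl (fun j _ => ?_)
  rw [map_mul, aeval_X, aeval_C, algebraMap_eq, ← mul_assoc, ← mul_assoc, ← map_mul, ← map_mul]
  congr 2
  push_cast
  ring

theorem flip_P (τ : Fin n ⊕ Fin n → ℤˣ) (k : ℕ) (δ : Fin n → ℤˣ) :
    flip τ (P F k δ) = C (((∏ i ∈ Finset.univ.filter (fun i : Fin n => (i : ℕ) < k),
      τ (Sum.inl i) : ℤˣ) : ℤ) : F) * P F k (fun j => δ j * τ (Sum.inr j)) := by
  have h : flip τ (P F k δ) = ∏ i ∈ Finset.univ.filter (fun i : Fin n => (i : ℕ) < k),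
      flip τ (L F i δ) := by
    rw [P, flip, map_prod]
    rfl
  rw [h]
  simp only [flip_L]
  rw [Finset.prod_mul_distrib, Units.coe_prod, Int.cast_prod, map_prod]
  rfl

theorem flip_per (τ : Fin n ⊕ Fin n → ℤˣ) :
    flip τ (per F n) = C ((((∏ i, τ (Sum.inl i)) * ∏ j, τ (Sum.inr j) : ℤˣ) : ℤ) : F) *
      per F n := by
  rw [flip, per, map_sum, Finset.mul_sum]
  refine Finset.sum_congr rfl (fun σ _ => ?_)
  rw [map_prod]
  simp only [aeval_X]
  rw [Finset.prod_mul_distrib]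
  congr 1
  rw [← map_prod]
  congr 1
  rw [← Equiv.prod_comp σ (fun j => τ (Sum.inr j)), ← Finset.prod_mul_distrib, Units.coe_prod,
    Int.cast_prod]

theorem sign_mul_self (u : ℤˣ) : (((u : ℤ)) : F) * ((u : ℤ) : F) = 1 := by
  rcases Int.units_eq_one_or u with h | h <;> simp [h]

theorem gl_isSymmetric : IsSymmetric (gl F n) ⊤ := by
  have key : ∀ (u : ℤˣ) (p : MvPolynomial (Fin n × Fin n) F),
      p = ((u : ℤ) : F) • (C ((u : ℤ) : F) * p) := by
    intro u p
    rw [← smul_eq_C_mul, smul_smul, sign_mul_self, one_smul]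
  rintro τ - (⟨i, δ⟩ | ⟨k, δ⟩ | u)
  · refine ⟨Sum.inl (i, fun j => δ j * τ (Sum.inr j)), _, sign_ne_zero (τ (Sum.inl i)), ?_⟩
    show L F i _ = _ • flip τ (L F i δ)
    rw [flip_L]
    exact key _ _
  · refine ⟨Sum.inr (Sum.inl (k, fun j => δ j * τ (Sum.inr j))), _, sign_ne_zero
      (∏ i ∈ Finset.univ.filter (fun i : Fin n => (i : ℕ) < k), τ (Sum.inl i)), ?_⟩
    show P F k _ = _ • flip τ (P F k δ)
    rw [flip_P]
    exact key _ _
  · refine ⟨Sum.inr (Sum.inr ()), _, sign_ne_zero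
      ((∏ i, τ (Sum.inl i)) * ∏ j, τ (Sum.inr j)), ?_⟩
    show per F n = _ • flip τ (per F n)
    rw [flip_per]
    exact key _ _

end H529R2.SymPer
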