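import Pool.Agent.H529R2.SymPer.FunBound
import Pool.Agent.H529R2.SymPer.Glynn
set_option autoImplicit false
set_option linter.unusedSectionVars false

/-! The permanent, the determinant and the sign of the permanent; Glynn's circuit. -/

namespace H529R2.SymPer.Fn

open Finset

section

variable {F : Type*} [Field F] {n : ℕ}

theorem prod_sp (a : Fin n → ℤˣ) (σ ρ : Equiv.Perm (Fin n)) :
    ∏ i, sp a σ (ρ i) i = if ρ = σ⁻¹ then ((∏ i, a i : ℤˣ) : ℤ) else 0 := by
  split_ifs with h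
  · subst h
    rw [Units.coe_prod, ← Equiv.prod_comp σ⁻¹ (fun i => ((a i : ℤˣ) : ℤ))]
    refine Finset.prod_congr rfl (fun i _ => ?_)
    simp [sp]
  · obtain ⟨i, hi⟩ : ∃ i, ρ i ≠ σ⁻¹ i := by
      by_contra hcon
      push Not at hcon
      exact h (Equiv.ext hcon)
    apply Finset.prod_eq_zero (Finset.mem_univ i)
    rw [sp, if_neg]
    intro h'
    exact hi (Equiv.Perm.eq_inv_iff_eq.mpr h')

theorem permanent_sp (a : Fin n → ℤˣ) (σ : Equiv.Perm (Fin n)) :
    (sp a σ).permanent = ((∏ i, a i : ℤˣ) : ℤ) := by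
  rw [Matrix.permanent]
  simp only [prod_sp]
  simp

theorem det_sp (a : Fin n → ℤˣ) (σ : Equiv.Perm (Fin n)) :
    (sp a σ).det = ((Equiv.Perm.sign σ : ℤˣ) : ℤ) * ((∏ i, a i : ℤˣ) : ℤ) := by
  rw [Matrix.det_apply]
  simp only [prod_sp]
  rw [Finset.sum_eq_single σ⁻¹]
  · simp [Units.smul_def]
  · intro ρ _ hρ
    rw [if_neg hρ, smul_zero]
  · intro h; exact absurd (Finset.mem_univ _) h

theorem sum_sq (c : F) :
    ∑ a : Fin n → ℤˣ, (((∏ i, a i : ℤˣ) : ℤ) : F) * (c * (((∏ i, a i : ℤˣ) : ℤ) : F)) =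
      2 ^ n * c := by
  have h : ∀ a : Fin n → ℤˣ,
      (((∏ i, a i : ℤˣ) : ℤ) : F) * (c * (((∏ i, a i : ℤˣ) : ℤ) : F)) = c := by
    intro a
    have := sgn_mul_self (F := F) (∏ i, a i)
    linear_combination c * this
  rw [Finset.sum_congr rfl (fun a _ => h a)]
  simp

theorem fullDegree_permanent (h2 : (2 : F) ≠ 0) :
    FullDegree (F := F) (n := n) (fun A => ((A.permanent : ℤ) : F)) := by
  intro σ
  have h := sum_sq (F := F) (n := n) 1
  simp only [one_mul, mul_one] at h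
  simp only [permanent_sp]
  rw [h]
  exact pow_ne_zero _ h2

theorem fullDegree_det (h2 : (2 : F) ≠ 0) :
    FullDegree (F := F) (n := n) (fun A => ((A.det : ℤ) : F)) := by
  intro σ
  simp only [det_sp]
  push_cast
  have h := sum_sq (F := F) (n := n) ((((Equiv.Perm.sign σ : ℤˣ) : ℤ)) : F)
  push_cast at h
  rw [h]
  exact mul_ne_zero (pow_ne_zero _ h2) (sign_ne_zero _)

theorem sum_sign (h2 : (2 : F) ≠ 0) (hn : 1 ≤ n) :
    ∑ a : Fin n → ℤˣ, (((∏ i, a i : ℤˣ) : ℤ) : F) = 0 := by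
  by_contra hne
  have h1 : coef (fun _ => (1 : F)) (1 : Equiv.Perm (Fin n)) Finset.univ ≠ 0 := by
    rw [coef]
    simpa using hne
  have h3 := coef_few (k := 0) (fun σ => ⟨∅, by simp, fun _ _ _ => rfl⟩) h1 h2
  rw [Finset.card_univ, Fintype.card_fin] at h3
  omega

theorem fullDegree_sign (h2 : (2 : F) ≠ 0) (hn : 1 ≤ n) :
    FullDegree (F := F) (n := n) (fun A => if 0 < A.permanent then 1 else 0) := by
  intro σ h
  simp only [permanent_sp] at h
  have h3 : ∀ a : Fin n → ℤˣ, 2 * ((((∏ i, a i : ℤˣ) : ℤ) : F) *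
      (if 0 < ((∏ i, a i : ℤˣ) : ℤ) then (1 : F) else 0)) =
      (((∏ i, a i : ℤˣ) : ℤ) : F) + (((∏ i, a i : ℤˣ) : ℤ) : F) *
        (1 * (((∏ i, a i : ℤˣ) : ℤ) : F)) := by
    intro a
    rcases Int.units_eq_one_or (∏ i, a i) with h' | h' <;> rw [h'] <;> norm_num
  have h4 := congrArg (fun x => 2 * x) h
  simp only [mul_zero] at h4
  rw [Finset.mul_sum, Finset.sum_congr rfl (fun a _ => h3 a), Finset.sum_add_distrib,
    sum_sign h2 hn, sum_sq, zero_add, mul_one] at h4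
  exact pow_ne_zero _ h2 h4

/-- the row forms -/
def rowForm (F : Type*) [Field F] {n : ℕ} (i : Fin n) (δ : Fin n → ℤˣ)
    (A : Matrix (Fin n) (Fin n) ℤ) : F :=
  ∑ j, (((δ j : ℤˣ) : ℤ) : F) * ((A i j : ℤ) : F)

/-- the gates of Glynn's circuit -/
def gly (F : Type*) [Field F] (n : ℕ) (v : Fin n × (Fin n → ℤˣ))
    (A : Matrix (Fin n) (Fin n) ℤ) : F :=
  ∏ i ∈ Finset.univ.filter (fun i : Fin n => i ≤ v.1), rowForm F i v.2 A

theorem few_rowForm (i : Fin n) (δ : Fin n → ℤˣ) : Few 1 (rowForm F i δ) := by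
  intro σ
  refine ⟨{i}, by simp, fun a b h => ?_⟩
  have h1 : a i = b i := h i (by simp)
  simp only [rowForm, sp]
  rw [h1]

theorem few_const (c : F) (k : ℕ) : Few k (fun _ : Matrix (Fin n) (Fin n) ℤ => c) :=
  fun _ => ⟨∅, by simp, fun _ _ _ => rfl⟩

theorem lin_few {k : ℕ} {G : Set (Matrix (Fin n) (Fin n) ℤ → F)}
    {f : Matrix (Fin n) (Fin n) ℤ → F} (h : Few k f) : Lin k G f :=
  Submodule.subset_span (Or.inl h)

theorem lin_zero {k : ℕ} {G : Set (Matrix (Fin n) (Fin n) ℤ → F)} : Lin k G 0 :=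
  Submodule.zero_mem _

theorem lin_mem {k : ℕ} {G : Set (Matrix (Fin n) (Fin n) ℤ → F)}
    {f : Matrix (Fin n) (Fin n) ℤ → F} (h : f ∈ G) : Lin k G f :=
  Submodule.subset_span (Or.inr h)

theorem gly_circuit : IsCircuit (Set.univ : Set (Matrix (Fin n) (Fin n) ℤ)) 1
    (fun v : Fin n × (Fin n → ℤˣ) => (v.1 : ℕ)) (gly F n) := by
  rintro ⟨k, δ⟩
  by_cases hk : (k : ℕ) = 0
  · refine ⟨0, rowForm F k δ, fun _ => 1, lin_zero, lin_few (few_rowForm _ _),
      lin_few (few_const _ _), fun A _ => ?_⟩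
    have : (Finset.univ.filter (fun i : Fin n => i ≤ k)) = {k} := by
      ext i
      simp only [Finset.mem_filter, Finset.mem_univ, true_and, Finset.mem_singleton, Fin.le_def,
        Fin.ext_iff]
      omega
    simp [gly, this]
  · refine ⟨0, gly F n (⟨k - 1, by omega⟩, δ), rowForm F k δ, lin_zero,
      lin_mem ⟨_, ?_, rfl⟩, lin_few (few_rowForm _ _), fun A _ => ?_⟩
    · show (k : ℕ) - 1 < k
      omega
    · have : (Finset.univ.filter (fun i : Fin n => i ≤ k)) =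
          insert k (Finset.univ.filter (fun i : Fin n => i ≤ ⟨k - 1, by omega⟩)) := by
        ext i
        simp only [Finset.mem_filter, Finset.mem_univ, true_and, Finset.mem_insert, Fin.le_def,
          Fin.ext_iff]
        omega
      simp only [gly]
      rw [this, Finset.prod_insert]
      · simp only [Pi.zero_apply, zero_add]
        rw [mul_comm]
      · simp only [Finset.mem_filter, Finset.mem_univ, true_and, Fin.le_def]
        omega

theorem rowForm_flip (τ : Fin n ⊕ Fin n → ℤˣ) (i : Fin n) (δ : Fin n → ℤˣ)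
    (A : Matrix (Fin n) (Fin n) ℤ) : rowForm F i δ (flip τ A) =
      (((τ (Sum.inl i) : ℤˣ) : ℤ) : F) * rowForm F i (fun j => δ j * τ (Sum.inr j)) A := by
  rw [rowForm, rowForm, Finset.mul_sum]
  refine Finset.sum_congr rfl (fun j _ => ?_)
  simp only [flip]
  push_cast
  ring

theorem gly_symmetric : IsSymmetric (Set.univ : Set (Matrix (Fin n) (Fin n) ℤ)) 1 (gly F n) ⊤ := by
  rintro τ - ⟨k, δ⟩
  refine ⟨(k, fun j => δ j * τ (Sum.inr j)), _, sign_ne_zero
    (∏ i ∈ Finset.univ.filter (fun i : Fin n => i ≤ k), τ (Sum.inl i)), 0, lin_zero,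
    fun A _ => ?_⟩
  simp only [gly, Pi.zero_apply, add_zero, rowForm_flip]
  rw [Finset.prod_mul_distrib, ← mul_assoc]
  have h1 : ∏ i ∈ Finset.univ.filter (fun i : Fin n => i ≤ k),
      (((τ (Sum.inl i) : ℤˣ) : ℤ) : F) =
      (((∏ i ∈ Finset.univ.filter (fun i : Fin n => i ≤ k), τ (Sum.inl i) : ℤˣ) : ℤ) : F) := by
    rw [Units.coe_prod, Int.cast_prod]
  rw [h1, sgn_mul_self, one_mul]

theorem glynn_matrix (A : Matrix (Fin n) (Fin n) ℤ) :
    ∑ δ : Fin n → ℤˣ, (((∏ j, δ j : ℤˣ) : ℤ) : F) * ∏ i, rowForm F i δ A =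
      2 ^ n * ((A.permanent : ℤ) : F) := by
  have h := congrArg (MvPolynomial.eval (fun e : Fin n × Fin n => ((A e.1 e.2 : ℤ) : F)))
    (glynn (F := F) (n := n))
  simp only [map_sum, map_mul, MvPolynomial.eval_C, per, P, L, map_prod, MvPolynomial.eval_X]
    at h
  have h1 : (Finset.univ.filter (fun i : Fin n => (i : ℕ) < n)) = Finset.univ := by
    ext i; simp
  rw [h1] at h
  simp only [rowForm]
  rw [h]
  congr 1
  rw [← Matrix.permanent_transpose, Matrix.permanent]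
  push_cast
  rfl

theorem gly_computes (h2 : (2 : F) ≠ 0) (hn : 1 ≤ n) :
    Computes (Set.univ : Set (Matrix (Fin n) (Fin n) ℤ)) 1 (gly F n)
      (fun A => ((A.permanent : ℤ) : F)) := by
  refine ⟨∑ δ : Fin n → ℤˣ, ((2 ^ n : F)⁻¹ * (((∏ j, δ j : ℤˣ) : ℤ) : F)) •
    gly F n (⟨n - 1, by omega⟩, δ), ?_, fun A _ => ?_⟩
  · refine Submodule.sum_mem _ (fun δ _ => Submodule.smul_mem _ _ ?_)
    exact Submodule.subset_span (Or.inr ⟨_, rfl⟩)
  · rw [Finset.sum_apply]
    have h1 : ∀ δ : Fin n → ℤˣ, (((2 ^ n : F)⁻¹ * (((∏ j, δ j : ℤˣ) : ℤ) : F)) •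
        gly F n (⟨n - 1, by omega⟩, δ)) A =
        (2 ^ n : F)⁻¹ * ((((∏ j, δ j : ℤˣ) : ℤ) : F) * ∏ i, rowForm F i δ A) := by
      intro δ
      have h3 : (Finset.univ.filter (fun i : Fin n => i ≤ ⟨n - 1, by omega⟩)) =
          Finset.univ := by
        ext i
        simp only [Finset.mem_filter, Finset.mem_univ, true_and, Fin.le_def, iff_true]
        omega
      rw [Pi.smul_apply, smul_eq_mul, mul_assoc]
      simp only [gly]
      rw [h3]
    rw [Finset.sum_congr rfl (fun δ _ => h1 δ), ← Finset.mul_sum, glynn_matrix, ← mul_assoc,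
      inv_mul_cancel₀ (pow_ne_zero _ h2), one_mul]

end

end H529R2.SymPer.Fn
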